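import Pool.Agent.Lib.MP_e7c4c5_co.Gad

/-!
Layered orderings with few inversions for all subgraphs of the nested gadgets.
-/

set_option autoImplicit false

namespace Pool.Agent.Lib.MP_e7c4c5_co

open Classical Finset

/-- Edges of a subgraph, oriented upwards. -/
noncomputable def Ed (Γ : Gad) (H : SimpleGraph Γ.V) : Finset (Γ.V × Γ.V) :=
  univ.filter (fun e => H.Adj e.1 e.2 ∧ Γ.lay e.2 = Γ.lay e.1 + 1)

/-- Inverted pairs of edges between the same two layers. -/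
noncomputable def Xs (Γ : Gad) (H : SimpleGraph Γ.V) (y : Γ.V → ℕ) :
    Finset ((Γ.V × Γ.V) × (Γ.V × Γ.V)) :=
  univ.filter (fun q => q.1 ∈ Ed Γ H ∧ q.2 ∈ Ed Γ H ∧ Γ.lay q.1.1 = Γ.lay q.2.1 ∧
    y q.1.1 < y q.2.1 ∧ y q.2.2 < y q.1.2)

theorem mem_Ed {Γ : Gad} {H : SimpleGraph Γ.V} {u v : Γ.V} :
    (u, v) ∈ Ed Γ H ↔ H.Adj u v ∧ Γ.lay v = Γ.lay u + 1 := by simp [Ed]

theorem mem_Xs {Γ : Gad} {H : SimpleGraph Γ.V} {y : Γ.V → ℕ} {u v u' v' : Γ.V} :
    ((u, v), (u', v')) ∈ Xs Γ H y ↔ (u, v) ∈ Ed Γ H ∧ (u', v') ∈ Ed Γ H ∧ Γ.lay u = Γ.lay u' ∧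
      y u < y u' ∧ y v' < y v := by simp [Xs]

/-- Injective inside each layer. -/
def LayInj (Γ : Gad) (y : Γ.V → ℕ) : Prop := ∀ u v, Γ.lay u = Γ.lay v → y u = y v → u = v

def CrInv (M g : ℕ) (Γ : Gad) : Prop :=
  ∀ H ≤ Γ.G, ∃ y : Γ.V → ℕ, LayInj Γ y ∧ M * (Xs Γ H y).card ≤ (Ed Γ H).card - g

/-- The two extreme layers are small. -/
def EndInv (N : ℕ) (Γ : Gad) : Prop :=
  (univ.filter (fun v => Γ.lay v = 0)).card ≤ N ∧
    (univ.filter (fun v => Γ.lay v = 2 * Γ.D)).card ≤ N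

theorem endInv_base {N : ℕ} (h : 1 ≤ N) : EndInv N base := by
  constructor <;> refine (card_le_univ _).trans (le_trans ?_ h) <;> exact le_of_eq rfl

theorem endInv_step {n N : ℕ} (Γ : Gad) (h : n ≤ N) : EndInv N (step n Γ) := by
  constructor
  · refine le_trans (card_le_card (t := univ.image vA) ?_) (card_image_le.trans (by simpa))
    intro v hv
    have hv' := (mem_filter.1 hv).2
    rcases sv_cases v with ⟨x, rfl⟩ | ⟨x, rfl⟩ | ⟨x, y, u, rfl⟩
    · simp
    · simp at hv'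
    · simp at hv'
  · refine le_trans (card_le_card (t := univ.image vB) ?_) (card_image_le.trans (by simpa))
    intro v hv
    have hv' := (mem_filter.1 hv).2
    rcases sv_cases v with ⟨x, rfl⟩ | ⟨x, rfl⟩ | ⟨x, y, u, rfl⟩
    · simp at hv'
    · simp
    · have := Γ.lay_le u
      simp only [lay_vC, step_D] at hv'
      omega

theorem crInv_base (M g : ℕ) : CrInv M g base := by
  intro H hH
  refine ⟨fun _ => 0, fun _ _ _ _ => rfl, ?_⟩
  have : Xs base H (fun _ => 0) = ∅ := by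
    apply eq_empty_of_forall_notMem
    rintro ⟨⟨u, v⟩, ⟨u', v'⟩⟩ h
    exact absurd (mem_Xs.1 h).2.2.2.1 (lt_irrefl _)
  simp [this]

/-- The part of a subgraph inside one copy. -/
def res {n : ℕ} {Γ : Gad} (H : SimpleGraph (step n Γ).V) (p : Fin n × Fin n) :
    SimpleGraph Γ.V := H.comap (vC p.1 p.2)

theorem res_le {n : ℕ} {Γ : Gad} {H : SimpleGraph (step n Γ).V} (hH : H ≤ (step n Γ).G)
    (p : Fin n × Fin n) : res H p ≤ Γ.G := fun _ _ h =>
  ((adj_CC n Γ _ _ _ _ _ _).1 (hH h)).2.2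

theorem sum_Ed_le {n : ℕ} {Γ : Gad} (H : SimpleGraph (step n Γ).V) :
    ∑ p, (Ed Γ (res H p)).card ≤ (Ed (step n Γ) H).card := by
  rw [← card_sigma]
  refine card_le_card_of_injOn (fun t => (vC t.1.1 t.1.2 t.2.1, vC t.1.1 t.1.2 t.2.2)) ?_ ?_
  · rintro ⟨p, u, v⟩ ht
    have := mem_Ed.1 (mem_sigma.1 ht).2
    exact mem_Ed.2 ⟨this.1, by simp [this.2]⟩
  · rintro ⟨⟨a, b⟩, u, v⟩ - ⟨⟨a', b'⟩, u', v'⟩ - h
    simp only [Prod.mk.injEq, vC_inj] at h
    obtain ⟨⟨rfl, rfl, rfl⟩, -, -, rfl⟩ := h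
    rfl

def mkY {n : ℕ} {Γ : Gad} (ra rb : Fin n → ℕ) (c : Fin n → Fin n → Γ.V → ℕ) :
    (step n Γ).V → ℕ
  | Sum.inl x => ra x
  | Sum.inr (Sum.inl y) => rb y
  | Sum.inr (Sum.inr (x, y, v)) => c x y v

@[simp] theorem mkY_A {n : ℕ} {Γ : Gad} (ra rb : Fin n → ℕ) (c : Fin n → Fin n → Γ.V → ℕ)
    (x : Fin n) : mkY ra rb c (vA x) = ra x := rfl
@[simp] theorem mkY_B {n : ℕ} {Γ : Gad} (ra rb : Fin n → ℕ) (c : Fin n → Fin n → Γ.V → ℕ)
    (x : Fin n) : mkY ra rb c (vB x) = rb x := rfl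
@[simp] theorem mkY_C {n : ℕ} {Γ : Gad} (ra rb : Fin n → ℕ) (c : Fin n → Fin n → Γ.V → ℕ)
    (x y : Fin n) (v : Γ.V) : mkY ra rb c (vC x y v) = c x y v := rfl

theorem band_lt {B a b β β' : ℕ} (ha : a < B) (h : β < β') : β * B + a < β' * B + b := by
  have : (β + 1) * B ≤ β' * B := Nat.mul_le_mul_right _ h
  rw [Nat.add_mul] at this
  omega

theorem band_eq {B a b β β' : ℕ} (ha : a < B) (hb : b < B) (h : β * B + a = β' * B + b) :
    β = β' ∧ a = b := by
  rcases lt_trichotomy β β' with h' | rfl | h'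
  · have := band_lt (b := b) ha h'; omega
  · omega
  · have := band_lt (b := a) hb h'; omega

/-- Combining orderings of the copies in bands. -/
theorem combine {n : ℕ} {Γ : Gad} {H : SimpleGraph (step n Γ).V} (hH : H ≤ (step n Γ).G)
    (y : Fin n × Fin n → Γ.V → ℕ) (hy : ∀ p, LayInj Γ (y p))
    (ra rb : Fin n → ℕ) (hra : Function.Injective ra) (hrb : Function.Injective rb)
    (k : Fin n → Fin n → Γ.V → ℕ)
    (hk : ∀ a b u v, (res H (a, b)).Adj u v → k a b u = k a b v) :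
    ∃ Y : (step n Γ).V → ℕ, LayInj (step n Γ) Y ∧
      (∀ x, Y (vA x) = ra x) ∧ (∀ x, Y (vB x) = rb x) ∧
      (∀ a b v a' b' v', k a b v < k a' b' v' → Y (vC a b v) < Y (vC a' b' v')) ∧
      (Xs (step n Γ) H Y).card ≤
        ((Xs (step n Γ) H Y).filter (fun q => (step n Γ).lay q.1.1 = 0)).card +
        ((Xs (step n Γ) H Y).filter (fun q => (step n Γ).lay q.1.2 = 2 * Γ.D + 2)).card +
        ∑ p, (Xs Γ (res H p) (y p)).card := by
  let Bd : ℕ := univ.sup (fun t : (Fin n × Fin n) × Γ.V => y t.1 t.2) + 1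
  have hBd : ∀ p v, y p v < Bd := fun p v =>
    Nat.lt_succ_of_le (le_sup (f := fun t : (Fin n × Fin n) × Γ.V => y t.1 t.2) (mem_univ (p, v)))
  let β : Fin n → Fin n → Γ.V → ℕ := fun a b v => (k a b v * n + a) * n + b
  have hβ : ∀ a b v a' b' v', β a b v = β a' b' v' → a = a' ∧ b = b' := by
    intro a b v a' b' v' h
    obtain ⟨h1, h2⟩ := band_eq b.2 b'.2 h
    obtain ⟨-, h3⟩ := band_eq a.2 a'.2 h1
    exact ⟨Fin.ext h3, Fin.ext h2⟩
  let Y : (step n Γ).V → ℕ := mkY ra rb (fun a b v => β a b v * Bd + y (a, b) v)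
  have hYC : ∀ a b v, Y (vC a b v) = β a b v * Bd + y (a, b) v := fun _ _ _ => rfl
  refine ⟨Y, ?_, fun _ => rfl, fun _ => rfl, ?_, ?_⟩
  · intro u v hl hY
    rcases sv_cases u with ⟨x, rfl⟩ | ⟨x, rfl⟩ | ⟨a, b, u, rfl⟩ <;>
      rcases sv_cases v with ⟨x', rfl⟩ | ⟨x', rfl⟩ | ⟨a', b', v, rfl⟩ <;>
      simp only [lay_vA, lay_vB, lay_vC] at hl
    · rw [hra hY]
    · omega
    · omega
    · omega
    · rw [hrb hY]
    · have := Γ.lay_le v; omega
    · omega
    · have := Γ.lay_le u; omega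
    · rw [hYC, hYC] at hY
      obtain ⟨h1, h2⟩ := band_eq (hBd _ _) (hBd _ _) hY
      obtain ⟨rfl, rfl⟩ := hβ _ _ _ _ _ _ h1
      rw [hy _ u v (by omega) h2]
  · intro a b v a' b' v' h
    rw [hYC, hYC]
    exact band_lt (hBd _ _) (band_lt b.2 (band_lt a.2 h))
  · let F : (Σ _ : Fin n × Fin n, (Γ.V × Γ.V) × (Γ.V × Γ.V)) →
        ((step n Γ).V × (step n Γ).V) × ((step n Γ).V × (step n Γ).V) := fun t =>
      ((vC t.1.1 t.1.2 t.2.1.1, vC t.1.1 t.1.2 t.2.1.2),
        (vC t.1.1 t.1.2 t.2.2.1, vC t.1.1 t.1.2 t.2.2.2))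
    rw [← card_sigma]
    refine le_trans (card_le_card (t :=
      ((Xs (step n Γ) H Y).filter (fun q => (step n Γ).lay q.1.1 = 0) ∪
        (Xs (step n Γ) H Y).filter (fun q => (step n Γ).lay q.1.2 = 2 * Γ.D + 2)) ∪
        (univ.sigma (fun p => Xs Γ (res H p) (y p))).image F) ?_) ?_
    · rintro ⟨⟨u, v⟩, ⟨u', v'⟩⟩ hq
      by_cases h0 : (step n Γ).lay u = 0
      · exact mem_union_left _ (mem_union_left _ (mem_filter.2 ⟨hq, h0⟩))
      by_cases h1 : (step n Γ).lay v = 2 * Γ.D + 2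
      · exact mem_union_left _ (mem_union_right _ (mem_filter.2 ⟨hq, h1⟩))
      refine mem_union_right _ ?_
      obtain ⟨e1, e2, hl, hlt, hlt'⟩ := mem_Xs.1 hq
      obtain ⟨a1, l1⟩ := mem_Ed.1 e1
      obtain ⟨a2, l2⟩ := mem_Ed.1 e2
      have hC : ∀ w : (step n Γ).V, (step n Γ).lay w ≠ 0 → (step n Γ).lay w ≠ 2 * Γ.D + 2 →
          ∃ a b w', w = vC a b w' := by
        intro w h h'
        rcases sv_cases w with ⟨x, rfl⟩ | ⟨x, rfl⟩ | h''
        · simp at h
        · simp at h'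
        · exact h''
      have b1 := (step n Γ).lay_le v
      have b2 := (step n Γ).lay_le v'
      rw [step_D] at b1 b2
      obtain ⟨a, b, u, rfl⟩ := hC u h0 (by omega)
      obtain ⟨a₁, b₁, v, rfl⟩ := hC v (by omega) h1
      obtain ⟨a', b', u', rfl⟩ := hC u' (by omega) (by omega)
      obtain ⟨a₂, b₂, v', rfl⟩ := hC v' (by omega) (by omega)
      obtain ⟨rfl, rfl, -⟩ := (adj_CC n Γ _ _ _ _ _ _).1 (hH a1)
      obtain ⟨rfl, rfl, -⟩ := (adj_CC n Γ _ _ _ _ _ _).1 (hH a2)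
      have k1 : β a b u = β a b v := by simp only [β, hk a b u v a1]
      have k2 : β a' b' u' = β a' b' v' := by simp only [β, hk a' b' u' v' a2]
      rw [hYC, hYC] at hlt hlt'
      have hb : β a b u = β a' b' u' := by
        rcases lt_trichotomy (β a b u) (β a' b' u') with h | h | h
        · have := band_lt (b := y (a', b') v') (hBd (a, b) v) (k1 ▸ k2 ▸ h); omega
        · exact h
        · have := band_lt (b := y (a, b) u) (hBd (a', b') u') h; omega
      obtain ⟨rfl, rfl⟩ := hβ _ _ _ _ _ _ hb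
      simp only [lay_vC] at l1 l2 hl
      refine mem_image.2 ⟨⟨(a, b), (u, v), (u', v')⟩, mem_sigma.2 ⟨mem_univ _, mem_Xs.2
        ⟨mem_Ed.2 ⟨a1, by omega⟩, mem_Ed.2 ⟨a2, by omega⟩, by omega, ?_, ?_⟩⟩, rfl⟩
      · rw [hb] at hlt; exact Nat.lt_of_add_lt_add_left hlt
      · rw [← k1, ← k2, hb] at hlt'; exact Nat.lt_of_add_lt_add_left hlt'
    · exact (card_union_le _ _).trans (Nat.add_le_add (card_union_le _ _) card_image_le)

/-- Vertices joined to the first layer inside a subgraph. -/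
def Left (Γ : Gad) (H : SimpleGraph Γ.V) (v : Γ.V) : Prop :=
  ∃ u, Γ.lay u = 0 ∧ Relation.ReflTransGen H.Adj u v

theorem left_card {Γ : Gad} {H : SimpleGraph Γ.V} (hH : H ≤ Γ.G) {v : Γ.V} (h : Left Γ H v) :
    Γ.lay v ≤ (Ed Γ H).card := by
  obtain ⟨u, hu, h⟩ := h
  have key : ∀ i < Γ.lay v, ∃ e ∈ Ed Γ H, Γ.lay e.1 = i := by
    induction h with
    | refl => intro i hi; omega
    | @tail b c _ hbc ih =>
      intro i hi
      rcases Γ.adj_lay b c (hH hbc) with e | e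
      · rcases Nat.lt_succ_iff_lt_or_eq.1 (e ▸ hi) with h | h
        · exact ih i h
        · exact ⟨(b, c), mem_Ed.2 ⟨hbc, e⟩, h.symm⟩
      · exact ih i (by omega)
  calc Γ.lay v = (range (Γ.lay v)).card := by simp
    _ ≤ ((Ed Γ H).image (fun e => Γ.lay e.1)).card := by
        apply card_le_card
        intro i hi
        obtain ⟨e, he, h⟩ := key i (mem_range.1 hi)
        exact mem_image.2 ⟨e, he, h⟩
    _ ≤ _ := card_image_le

theorem sum_sub_le {ι : Type} (s : Finset ι) (e : ι → ℕ) (g : ℕ) :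
    ∑ i ∈ s, (e i - g) ≤ (∑ i ∈ s, e i) - g := by
  induction s using Finset.induction_on with
  | empty => simp
  | insert a s ha ih => rw [sum_insert ha, sum_insert ha]; omega

theorem sum_sub_le_two {ι : Type} [Fintype ι] (e : ι → ℕ) (g : ℕ) {p q : ι} (hpq : p ≠ q)
    (hp : g ≤ e p) (hq : g ≤ e q) : ∑ i, (e i - g) + 2 * g ≤ ∑ i, e i := by
  have hq' : q ∈ univ.erase p := mem_erase.2 ⟨hpq.symm, mem_univ _⟩
  rw [← add_sum_erase _ _ (mem_univ p), ← add_sum_erase _ _ (mem_univ p),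
    ← add_sum_erase _ _ hq', ← add_sum_erase _ _ hq']
  have : ∑ i ∈ (univ.erase p).erase q, (e i - g) ≤ ∑ i ∈ (univ.erase p).erase q, e i :=
    sum_le_sum (fun i _ => Nat.sub_le _ _)
  omega

theorem edge_A {n : ℕ} {Γ : Gad} {H : SimpleGraph (step n Γ).V} (hH : H ≤ (step n Γ).G)
    {u v : (step n Γ).V} (h : (u, v) ∈ Ed (step n Γ) H) (h0 : (step n Γ).lay u = 0) :
    ∃ x b w, u = vA x ∧ v = vC x b w ∧ Γ.lay w = 0 := by
  have ha := hH (mem_Ed.1 h).1
  rcases sv_cases u with ⟨x, rfl⟩ | ⟨x, rfl⟩ | ⟨a, b, u, rfl⟩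
  · rcases sv_cases v with ⟨x', rfl⟩ | ⟨x', rfl⟩ | ⟨a', b', v, rfl⟩
    · simp at ha
    · simp at ha
    · obtain ⟨rfl, h'⟩ := (adj_AC n Γ _ _ _ _).1 ha
      exact ⟨_, _, _, rfl, rfl, h'⟩
  · simp at h0
  · simp at h0

theorem edge_B {n : ℕ} {Γ : Gad} {H : SimpleGraph (step n Γ).V} (hH : H ≤ (step n Γ).G)
    {u v : (step n Γ).V} (h : (u, v) ∈ Ed (step n Γ) H)
    (h0 : (step n Γ).lay v = 2 * Γ.D + 2) :
    ∃ x a w, v = vB x ∧ u = vC a x w ∧ Γ.lay w = 2 * Γ.D := by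
  have ha := hH (mem_Ed.1 h).1
  rcases sv_cases v with ⟨x, rfl⟩ | ⟨x, rfl⟩ | ⟨a, b, v, rfl⟩
  · simp at h0
  · rcases sv_cases u with ⟨x', rfl⟩ | ⟨x', rfl⟩ | ⟨a', b', u, rfl⟩
    · simp at ha
    · simp at ha
    · obtain ⟨rfl, h'⟩ := (adj_CB n Γ _ _ _ _).1 ha
      exact ⟨_, _, _, rfl, rfl, h'⟩
  · have := Γ.lay_le v
    simp only [lay_vC] at h0
    omega

theorem crInv_step {M g n N : ℕ} {Γ : Gad} (h : CrInv M g Γ) (hN : EndInv N Γ) (hn : 0 < n)
    (hg : n = 1 ∨ (g ≤ 2 * Γ.D ∧ 2 * M * (n * n * N) ^ 2 ≤ g)) : CrInv M g (step n Γ) := by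
  intro H hH
  choose y hy hX using fun p => h (res H p) (res_le hH p)
  have hsum : M * ∑ p, (Xs Γ (res H p) (y p)).card ≤ ∑ p, ((Ed Γ (res H p)).card - g) := by
    rw [mul_sum]; exact sum_le_sum (fun p _ => hX p)
  have hE := sum_Ed_le H
  let live : Fin n × Fin n → Prop := fun p => ∃ v, Γ.lay v = 2 * Γ.D ∧ Left Γ (res H p) v
  by_cases h2 : ∃ p q, p ≠ q ∧ live p ∧ live q
  · obtain ⟨p, q, hpq, ⟨v, hv, hv'⟩, ⟨w, hw, hw'⟩⟩ := h2
    rcases hg with rfl | ⟨hg, hg'⟩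
    · exact absurd (Subsingleton.elim p q) hpq
    have l1 := left_card (res_le hH p) hv'
    have l2 := left_card (res_le hH q) hw'
    have hs := sum_sub_le_two (fun p => (Ed Γ (res H p)).card) g hpq (by omega) (by omega)
    obtain ⟨Y, hY, -, -, -, hc⟩ := combine hH y hy (fun x => x) (fun x => x) Fin.val_injective
      Fin.val_injective (fun _ _ _ => 0) (fun _ _ _ _ _ => rfl)
    refine ⟨Y, hY, ?_⟩
    have cA : ((Xs (step n Γ) H Y).filter (fun q => (step n Γ).lay q.1.1 = 0)).card ≤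
        (n * n * N) ^ 2 := by
      let T : Finset ((step n Γ).V × (step n Γ).V) :=
        ((univ : Finset (Fin n × Fin n)) ×ˢ univ.filter (fun v => Γ.lay v = 0)).image
          (fun t => (vA t.1.1, vC t.1.1 t.1.2 t.2))
      have hT : T.card ≤ n * n * N := by
        refine card_image_le.trans ?_
        rw [card_product]
        exact Nat.mul_le_mul (by simp) hN.1
      refine le_trans (card_le_card (t := T ×ˢ T) ?_) ?_
      · rintro ⟨⟨u, v⟩, ⟨u', v'⟩⟩ hq
        obtain ⟨hq, h0⟩ := mem_filter.1 hq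
        obtain ⟨e1, e2, hl, -, -⟩ := mem_Xs.1 hq
        obtain ⟨x, b, w, rfl, rfl, hw⟩ := edge_A hH e1 h0
        obtain ⟨x', b', w', rfl, rfl, hw'⟩ := edge_A hH e2 (hl.symm.trans h0)
        exact mem_product.2 ⟨mem_image.2 ⟨((x, b), w), by simp [hw], rfl⟩,
          mem_image.2 ⟨((x', b'), w'), by simp [hw'], rfl⟩⟩
      · rw [card_product, sq]; exact Nat.mul_le_mul hT hT
    have cB : ((Xs (step n Γ) H Y).filter
        (fun q => (step n Γ).lay q.1.2 = 2 * Γ.D + 2)).card ≤ (n * n * N) ^ 2 := by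
      let T : Finset ((step n Γ).V × (step n Γ).V) :=
        ((univ : Finset (Fin n × Fin n)) ×ˢ univ.filter (fun v => Γ.lay v = 2 * Γ.D)).image
          (fun t => (vC t.1.1 t.1.2 t.2, vB t.1.2))
      have hT : T.card ≤ n * n * N := by
        refine card_image_le.trans ?_
        rw [card_product]
        exact Nat.mul_le_mul (by simp) hN.2
      refine le_trans (card_le_card (t := T ×ˢ T) ?_) ?_
      · rintro ⟨⟨u, v⟩, ⟨u', v'⟩⟩ hq
        obtain ⟨hq, h0⟩ := mem_filter.1 hq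
        obtain ⟨e1, e2, hl, -, -⟩ := mem_Xs.1 hq
        have l1 := (mem_Ed.1 e1).2
        have l2 := (mem_Ed.1 e2).2
        obtain ⟨x, b, w, rfl, rfl, hw⟩ := edge_B hH e1 h0
        obtain ⟨x', b', w', rfl, rfl, hw'⟩ := edge_B hH e2 (by simp only at h0; omega)
        exact mem_product.2 ⟨mem_image.2 ⟨((b, x), w), by simp [hw], rfl⟩,
          mem_image.2 ⟨((b', x'), w'), by simp [hw'], rfl⟩⟩
      · rw [card_product, sq]; exact Nat.mul_le_mul hT hT
    have : M * (Xs (step n Γ) H Y).card ≤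
        2 * M * (n * n * N) ^ 2 + M * ∑ p, (Xs Γ (res H p) (y p)).card := by
      calc M * (Xs (step n Γ) H Y).card ≤ M * ((n * n * N) ^ 2 + (n * n * N) ^ 2 +
            ∑ p, (Xs Γ (res H p) (y p)).card) := Nat.mul_le_mul_left _ (by omega)
        _ = _ := by ring
    omega
  · have h1 : ∃ p₀ : Fin n × Fin n, ∀ p, live p → p = p₀ := by
      by_cases h3 : ∃ p, live p
      · obtain ⟨p, hp⟩ := h3
        refine ⟨p, fun q hq => ?_⟩
        by_contra hne
        exact h2 ⟨q, p, hne, hq, hp⟩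
      · exact ⟨(⟨0, hn⟩, ⟨0, hn⟩), fun p hp => absurd ⟨p, hp⟩ h3⟩
    obtain ⟨⟨x₀, y₀⟩, h0⟩ := h1
    let ra : Fin n → ℕ := fun x => if x = x₀ then n else x
    let rb : Fin n → ℕ := fun x => if x = y₀ then 0 else x + 1
    have hra : Function.Injective ra := by
      intro a b hab
      have := a.2
      have := b.2
      simp only [ra] at hab
      split_ifs at hab with h h' h'
      · rw [h, h']
      · omega
      · omega
      · exact Fin.ext hab
    have hrb : Function.Injective rb := by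
      intro a b hab
      simp only [rb] at hab
      split_ifs at hab with h h' h'
      · rw [h, h']
      · exact Fin.ext (by omega)
    have hra' : ∀ x, ra x ≤ n := by
      intro x
      have := x.2
      simp only [ra]; split_ifs <;> omega
    let k : Fin n → Fin n → Γ.V → ℕ := fun a b v =>
      if (a, b) = (x₀, y₀) then n + 1 else if Left Γ (res H (a, b)) v then ra a else n + 2 + rb b
    have hk : ∀ a b u v, (res H (a, b)).Adj u v → k a b u = k a b v := by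
      intro a b u v huv
      have : Left Γ (res H (a, b)) u ↔ Left Γ (res H (a, b)) v :=
        ⟨fun ⟨w, hw, h⟩ => ⟨w, hw, h.tail huv⟩, fun ⟨w, hw, h⟩ => ⟨w, hw, h.tail huv.symm⟩⟩
      simp only [k, this]
    obtain ⟨Y, hY, hA, hB, hC, hc⟩ := combine hH y hy ra rb hra hrb k hk
    refine ⟨Y, hY, ?_⟩
    have cA : (Xs (step n Γ) H Y).filter (fun q => (step n Γ).lay q.1.1 = 0) = ∅ := by
      apply eq_empty_of_forall_notMem
      rintro ⟨⟨u, v⟩, ⟨u', v'⟩⟩ hq
      obtain ⟨hq, h0⟩ := mem_filter.1 hq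
      obtain ⟨e1, e2, hl, hlt, hlt'⟩ := mem_Xs.1 hq
      obtain ⟨x, b, w, rfl, rfl, hw⟩ := edge_A hH e1 h0
      obtain ⟨x', b', w', rfl, rfl, hw'⟩ := edge_A hH e2 (hl.symm.trans h0)
      rw [hA, hA] at hlt
      have L1 : Left Γ (res H (x, b)) w := ⟨w, hw, Relation.ReflTransGen.refl⟩
      have L2 : Left Γ (res H (x', b')) w' := ⟨w', hw', Relation.ReflTransGen.refl⟩
      have hx : x ≠ x₀ := by
        rintro rfl
        have := hra' x'
        simp only [ra, if_true] at hlt this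
        omega
      have k1 : k x b w = ra x := by simp [k, hx, L1]
      have k2 : ra x' ≤ k x' b' w' := by
        have := hra' x'
        simp only [k, L2, if_true]
        split_ifs <;> omega
      have := hC x b w x' b' w' (by omega)
      omega
    have cB : (Xs (step n Γ) H Y).filter
        (fun q => (step n Γ).lay q.1.2 = 2 * Γ.D + 2) = ∅ := by
      apply eq_empty_of_forall_notMem
      rintro ⟨⟨u, v⟩, ⟨u', v'⟩⟩ hq
      obtain ⟨hq, h0'⟩ := mem_filter.1 hq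
      obtain ⟨e1, e2, hl, hlt, hlt'⟩ := mem_Xs.1 hq
      have l1 := (mem_Ed.1 e1).2
      have l2 := (mem_Ed.1 e2).2
      obtain ⟨x, b, w, rfl, rfl, hw⟩ := edge_B hH e1 h0'
      obtain ⟨x', b', w', rfl, rfl, hw'⟩ := edge_B hH e2 (by simp only at h0'; omega)
      rw [hB, hB] at hlt'
      have hx : x ≠ y₀ := by
        rintro rfl
        simp [rb] at hlt'
      have nl : ∀ a c z, (a, c) ≠ (x₀, y₀) → Γ.lay z = 2 * Γ.D → ¬ Left Γ (res H (a, c)) z :=
        fun a c z hne hz hL => hne (h0 _ ⟨z, hz, hL⟩)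
      have hne : (b, x) ≠ (x₀, y₀) := fun e => hx (congrArg Prod.snd e)
      have k1 : k b x w = n + 2 + rb x := by
        simp only [k, if_neg hne, if_neg (nl b x w hne hw)]
      have k2 : k b' x' w' ≤ n + 2 + rb x' := by
        by_cases e : (b', x') = (x₀, y₀)
        · simp only [k, if_pos e]; omega
        · simp only [k, if_neg e, if_neg (nl b' x' w' e hw')]; omega
      have := hC b' x' w' b x w (by omega)
      omega
    rw [cA, cB] at hc
    have hs := sum_sub_le univ (fun p => (Ed Γ (res H p)).card) g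
    have : M * (Xs (step n Γ) H Y).card ≤ M * ∑ p, (Xs Γ (res H p) (y p)).card :=
      Nat.mul_le_mul_left _ (by simpa using hc)
    omega

theorem endInv_tower₁ {N : ℕ} (hN : 1 ≤ N) (k : ℕ) : EndInv N (tower₁ k) := by
  cases k with
  | zero => exact endInv_base hN
  | succ k => exact endInv_step _ hN

theorem endInv_tower₂ {n : ℕ} (hn : 1 ≤ n) (R k : ℕ) : EndInv n (tower₂ n R k) := by
  cases k with
  | zero => exact endInv_tower₁ hn R
  | succ k => exact endInv_step _ le_rfl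

theorem crInv_tower₁ (M g k : ℕ) : CrInv M g (tower₁ k) := by
  induction k with
  | zero => exact crInv_base M g
  | succ k ih => exact crInv_step ih (endInv_tower₁ le_rfl k) one_pos (Or.inl rfl)

theorem crInv_tower₂ {M n R : ℕ} (hn : 1 ≤ n) (hR : M * (n * n * n) ^ 2 ≤ R) (k : ℕ) :
    CrInv M (2 * R) (tower₂ n R k) := by
  induction k with
  | zero => exact crInv_tower₁ M _ R
  | succ k ih =>
    refine crInv_step ih (endInv_tower₂ hn R k) hn (Or.inr ⟨?_, ?_⟩)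
    · rw [tower₂_D]; omega
    · rw [Nat.mul_assoc]; omega

end Pool.Agent.Lib.MP_e7c4c5_co
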