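import Mathlib

/-!
Nonrepetitive colourings, shallow minors and straight-line drawings.
-/

set_option autoImplicit false

namespace Pool.Agent.Lib.MP_e7c4c5_co

/-- No path on an even number of vertices has the same colour sequence on its two halves. -/
def IsNonrepetitive {V α : Type} (G : SimpleGraph V) (c : V → α) : Prop :=
  ∀ (a b : V) (P : G.Walk a b), P.IsPath → ∀ n : ℕ, 0 < n → P.support.length = 2 * n →
    (P.support.take n).map c ≠ (P.support.drop n).map c

/-- `H` is an `r`-shallow minor of `G`: there are pairwise disjoint branch sets `B i`, each with a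
centre `z i` joined to every vertex of `B i` by a walk of length at most `r` inside `B i`, and
adjacent vertices of `H` have adjacent branch sets. -/
def IsShallowMinor {V W : Type} (r : ℕ) (H : SimpleGraph W) (G : SimpleGraph V) : Prop :=
  ∃ (B : W → Set V) (z : W → V),
    (∀ i j, i ≠ j → Disjoint (B i) (B j)) ∧ (∀ i, z i ∈ B i) ∧
    (∀ i, ∀ v ∈ B i, ∃ p : G.Walk (z i) v, p.length ≤ r ∧ ∀ w ∈ p.support, w ∈ B i) ∧
    ∀ i j, H.Adj i j → ∃ u ∈ B i, ∃ v ∈ B j, G.Adj u v

/-- A plane drawing with straight edges: distinct vertex points, no vertex point inside an edge,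
and no point inside three different edges. -/
def IsStraightDrawing {V : Type} (H : SimpleGraph V) (p : V → ℝ × ℝ) : Prop :=
  Function.Injective p ∧
  (∀ u v w, H.Adj u v → p w ∉ openSegment ℝ (p u) (p v)) ∧
  ∀ u₁ v₁ u₂ v₂ u₃ v₃, H.Adj u₁ v₁ → H.Adj u₂ v₂ → H.Adj u₃ v₃ →
    s(u₁, v₁) ≠ s(u₂, v₂) → s(u₁, v₁) ≠ s(u₃, v₃) → s(u₂, v₂) ≠ s(u₃, v₃) →
    openSegment ℝ (p u₁) (p v₁) ∩ openSegment ℝ (p u₂) (p v₂) ∩
      openSegment ℝ (p u₃) (p v₃) = ∅

/-- The crossings of a straight-line drawing: unordered pairs of different edges whose interiors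
meet. -/
def crossings {V : Type} (H : SimpleGraph V) (p : V → ℝ × ℝ) : Set (Sym2 (Sym2 V)) :=
  {e | ∃ u v u' v', H.Adj u v ∧ H.Adj u' v' ∧ s(u, v) ≠ s(u', v') ∧
    e = s(s(u, v), s(u', v')) ∧
    (openSegment ℝ (p u) (p v) ∩ openSegment ℝ (p u') (p v')).Nonempty}

end Pool.Agent.Lib.MP_e7c4c5_co
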