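import Mathlib

/-!
Layered two-terminal gadgets and the nesting step.
-/

set_option autoImplicit false

namespace Pool.Agent.Lib.MP_e7c4c5_co

/-- A layered graph with layers `0, …, 2 D`. -/
structure Gad where
  V : Type
  fin : Fintype V
  G : SimpleGraph V
  lay : V → ℕ
  D : ℕ
  lay_le : ∀ v, lay v ≤ 2 * D
  adj_lay : ∀ u v, G.Adj u v → lay v = lay u + 1 ∨ lay u = lay v + 1

instance (Γ : Gad) : Fintype Γ.V := Γ.fin

/-- Vertices after one nesting step. -/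
abbrev SV (n : ℕ) (V : Type) : Type := Fin n ⊕ Fin n ⊕ (Fin n × Fin n × V)

def sAdj (n : ℕ) (Γ : Gad) : SV n Γ.V → SV n Γ.V → Prop
  | Sum.inl x, Sum.inr (Sum.inr (x', _, v)) => x = x' ∧ Γ.lay v = 0
  | Sum.inr (Sum.inr (x', _, v)), Sum.inl x => x = x' ∧ Γ.lay v = 0
  | Sum.inr (Sum.inl y), Sum.inr (Sum.inr (_, y', v)) => y = y' ∧ Γ.lay v = 2 * Γ.D
  | Sum.inr (Sum.inr (_, y', v)), Sum.inr (Sum.inl y) => y = y' ∧ Γ.lay v = 2 * Γ.D
  | Sum.inr (Sum.inr (x, y, v)), Sum.inr (Sum.inr (x', y', v')) =>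
      x = x' ∧ y = y' ∧ Γ.G.Adj v v'
  | _, _ => False

def sGraph (n : ℕ) (Γ : Gad) : SimpleGraph (SV n Γ.V) where
  Adj := sAdj n Γ
  symm := ⟨by
    rintro (x | y | ⟨x, y, v⟩) (x' | y' | ⟨x', y', v'⟩) h <;> simp only [sAdj] at h ⊢
    all_goals first | exact h | exact ⟨h.1.symm, h.2.1.symm, h.2.2.symm⟩⟩
  loopless := ⟨by
    rintro (x | y | ⟨x, y, v⟩) h <;> simp only [sAdj] at h
    exact h.2.2.ne rfl⟩

def sLay (n : ℕ) (Γ : Gad) : SV n Γ.V → ℕ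
  | Sum.inl _ => 0
  | Sum.inr (Sum.inl _) => 2 * Γ.D + 2
  | Sum.inr (Sum.inr (_, _, v)) => Γ.lay v + 1

/-- The nesting step: a complete bipartite graph `K_{n,n}` whose edges are copies of `Γ`. -/
def step (n : ℕ) (Γ : Gad) : Gad where
  V := SV n Γ.V
  fin := inferInstance
  G := sGraph n Γ
  lay := sLay n Γ
  D := Γ.D + 1
  lay_le := by
    rintro (x | y | ⟨x, y, v⟩) <;> simp only [sLay]
    · omega
    · omega
    · have := Γ.lay_le v; omega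
  adj_lay := by
    rintro (x | y | ⟨x, y, v⟩) (x' | y' | ⟨x', y', v'⟩) h <;>
      simp only [sGraph, sAdj] at h <;> simp only [sLay]
    · omega
    · omega
    · omega
    · omega
    · have := Γ.adj_lay _ _ h.2.2; omega

def vA {n : ℕ} {Γ : Gad} (x : Fin n) : (step n Γ).V := Sum.inl x
def vB {n : ℕ} {Γ : Gad} (y : Fin n) : (step n Γ).V := Sum.inr (Sum.inl y)
def vC {n : ℕ} {Γ : Gad} (x y : Fin n) (v : Γ.V) : (step n Γ).V := Sum.inr (Sum.inr (x, y, v))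

theorem sv_cases {n : ℕ} {Γ : Gad} (u : (step n Γ).V) :
    (∃ x, u = vA x) ∨ (∃ y, u = vB y) ∨ ∃ x y v, u = vC x y v := by
  rcases u with x | y | ⟨x, y, v⟩
  · exact Or.inl ⟨x, rfl⟩
  · exact Or.inr (Or.inl ⟨y, rfl⟩)
  · exact Or.inr (Or.inr ⟨x, y, v, rfl⟩)

section
variable {n : ℕ} {Γ : Gad}
@[simp] theorem vA_inj (x x' : Fin n) : (vA x : (step n Γ).V) = vA x' ↔ x = x' :=
  ⟨fun h => Sum.inl.inj h, fun h => by rw [h]⟩
@[simp] theorem vB_inj (x x' : Fin n) : (vB x : (step n Γ).V) = vB x' ↔ x = x' :=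
  ⟨fun h => Sum.inl.inj (Sum.inr.inj h), fun h => by rw [h]⟩
@[simp] theorem vC_inj (x x' y y' : Fin n) (v v' : Γ.V) :
    (vC x y v : (step n Γ).V) = vC x' y' v' ↔ x = x' ∧ y = y' ∧ v = v' :=
  ⟨fun h => by simpa using Sum.inr.inj (Sum.inr.inj h), fun h => by rw [h.1, h.2.1, h.2.2]⟩
@[simp] theorem vA_ne_vB (x y : Fin n) : ¬ (vA x : (step n Γ).V) = vB y :=
  fun h => Sum.inl_ne_inr h
@[simp] theorem vB_ne_vA (x y : Fin n) : ¬ (vB y : (step n Γ).V) = vA x :=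
  fun h => Sum.inr_ne_inl h
@[simp] theorem vA_ne_vC (x x' y : Fin n) (v : Γ.V) : ¬ (vA x : (step n Γ).V) = vC x' y v :=
  fun h => Sum.inl_ne_inr h
@[simp] theorem vC_ne_vA (x x' y : Fin n) (v : Γ.V) : ¬ (vC x' y v : (step n Γ).V) = vA x :=
  fun h => Sum.inr_ne_inl h
@[simp] theorem vB_ne_vC (x x' y : Fin n) (v : Γ.V) : ¬ (vB x : (step n Γ).V) = vC x' y v :=
  fun h => Sum.inl_ne_inr (Sum.inr.inj h)
@[simp] theorem vC_ne_vB (x x' y : Fin n) (v : Γ.V) : ¬ (vC x' y v : (step n Γ).V) = vB x :=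
  fun h => Sum.inr_ne_inl (Sum.inr.inj h)
end

/-- The one-vertex gadget. -/
def base : Gad where
  V := Unit
  fin := inferInstance
  G := ⊥
  lay := fun _ => 0
  D := 0
  lay_le := fun _ => le_rfl
  adj_lay := fun _ _ h => h.elim

section
variable (n : ℕ) (Γ : Gad)
@[simp] theorem step_D : (step n Γ).D = Γ.D + 1 := rfl
@[simp] theorem lay_vA (x : Fin n) : (step n Γ).lay (vA x) = 0 := rfl
@[simp] theorem lay_vB (y : Fin n) : (step n Γ).lay (vB y) = 2 * Γ.D + 2 := rfl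
@[simp] theorem lay_vC (x y : Fin n) (v : Γ.V) : (step n Γ).lay (vC x y v) = Γ.lay v + 1 := rfl
@[simp] theorem adj_AA (x x' : Fin n) : ¬ (step n Γ).G.Adj (vA x) (vA x') := fun h => h
@[simp] theorem adj_AB (x x' : Fin n) : ¬ (step n Γ).G.Adj (vA x) (vB x') := fun h => h
@[simp] theorem adj_BA (x x' : Fin n) : ¬ (step n Γ).G.Adj (vB x) (vA x') := fun h => h
@[simp] theorem adj_BB (x x' : Fin n) : ¬ (step n Γ).G.Adj (vB x) (vB x') := fun h => h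
@[simp] theorem adj_AC (x x' y : Fin n) (v : Γ.V) :
    (step n Γ).G.Adj (vA x) (vC x' y v) ↔ x = x' ∧ Γ.lay v = 0 := Iff.rfl
@[simp] theorem adj_CA (x x' y : Fin n) (v : Γ.V) :
    (step n Γ).G.Adj (vC x' y v) (vA x) ↔ x = x' ∧ Γ.lay v = 0 := Iff.rfl
@[simp] theorem adj_BC (y x y' : Fin n) (v : Γ.V) :
    (step n Γ).G.Adj (vB y) (vC x y' v) ↔ y = y' ∧ Γ.lay v = 2 * Γ.D := Iff.rfl
@[simp] theorem adj_CB (y x y' : Fin n) (v : Γ.V) :
    (step n Γ).G.Adj (vC x y' v) (vB y) ↔ y = y' ∧ Γ.lay v = 2 * Γ.D := Iff.rfl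
@[simp] theorem adj_CC (x y x' y' : Fin n) (v v' : Γ.V) :
    (step n Γ).G.Adj (vC x y v) (vC x' y' v') ↔ x = x' ∧ y = y' ∧ Γ.G.Adj v v' := Iff.rfl
end

/-- `R` trivial steps: a path. -/
def tower₁ : ℕ → Gad
  | 0 => base
  | k + 1 => step 1 (tower₁ k)

/-- `L` steps with `K_{n,n}` on top of a path. -/
def tower₂ (n R : ℕ) : ℕ → Gad
  | 0 => tower₁ R
  | k + 1 => step n (tower₂ n R k)

theorem tower₁_D (k : ℕ) : (tower₁ k).D = k := by
  induction k with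
  | zero => rfl
  | succ k ih => simp [tower₁, ih]

theorem tower₂_D (n R k : ℕ) : (tower₂ n R k).D = R + k := by
  induction k with
  | zero => simp [tower₂, tower₁_D]
  | succ k ih => simp [tower₂, ih]; omega

end Pool.Agent.Lib.MP_e7c4c5_co
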