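import Pool.Agent.Lib.MP_e7c4c5_co.Defs
import Pool.Agent.Lib.MP_e7c4c5_co.Cross

/-!
Straight-line drawings from layered orderings.
-/

set_option autoImplicit false

namespace Pool.Agent.Lib.MP_e7c4c5_co

open Classical Finset

theorem no_three_sorted {N a₁ a₂ a₃ m₁ m₂ m₃ : ℕ} {s t : ℝ} (hs : 0 < s) (ht : 0 < t)
    (h₂ : a₂ ≤ N) (h12 : m₁ < m₂) (h23 : m₂ < m₃)
    (e₁ : s * a₁ + t * ((N : ℝ) + 2) ^ m₁ = s * a₂ + t * ((N : ℝ) + 2) ^ m₂)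
    (e₂ : s * a₂ + t * ((N : ℝ) + 2) ^ m₂ = s * a₃ + t * ((N : ℝ) + 2) ^ m₃) : False := by
  set T : ℝ := (N : ℝ) + 2 with hT
  have hN : (0 : ℝ) ≤ N := Nat.cast_nonneg _
  have hT1 : 1 < T := by linarith
  have p1 : 0 < T ^ m₁ := by positivity
  have p12 : T ^ m₁ < T ^ m₂ := pow_lt_pow_right₀ hT1 h12
  have p23 : T ^ m₂ * T ≤ T ^ m₃ := by
    rw [← pow_succ]; exact pow_le_pow_right₀ hT1.le h23
  have ha : (a₂ : ℝ) < a₁ := by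
    by_contra hc
    have : s * a₁ ≤ s * a₂ := mul_le_mul_of_nonneg_left (not_lt.1 hc) hs.le
    have : t * T ^ m₁ < t * T ^ m₂ := mul_lt_mul_of_pos_left p12 ht
    linarith
  have ha' : (a₂ : ℝ) + 1 ≤ a₁ := by exact_mod_cast (Nat.cast_lt.1 ha : a₂ < a₁)
  have h3 : (0 : ℝ) ≤ a₃ := Nat.cast_nonneg _
  have h2 : (a₂ : ℝ) ≤ N := by exact_mod_cast h₂
  have q1 : s ≤ t * T ^ m₂ := by nlinarith [mul_pos ht p1]
  have q2 : t * (T ^ m₂ * T) ≤ t * T ^ m₃ := mul_le_mul_of_nonneg_left p23 ht.le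
  have q3 : s * a₂ ≤ s * N := mul_le_mul_of_nonneg_left h2 hs.le
  have q4 : 0 ≤ s * a₃ := mul_nonneg hs.le h3
  have q5 : s * (N + 1) ≤ t * T ^ m₂ * (N + 1) := mul_le_mul_of_nonneg_right q1 (by linarith)
  have q6 : t * (T ^ m₂ * T) = t * T ^ m₂ * (N + 1) + t * T ^ m₂ := by rw [hT]; ring
  nlinarith

theorem no_three {N a₁ a₂ a₃ m₁ m₂ m₃ : ℕ} {s t : ℝ} (hs : 0 < s) (ht : 0 < t)
    (h₁ : a₁ ≤ N) (h₂ : a₂ ≤ N) (h₃ : a₃ ≤ N) (h12 : m₁ ≠ m₂) (h13 : m₁ ≠ m₃) (h23 : m₂ ≠ m₃)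
    (e₁ : s * a₁ + t * ((N : ℝ) + 2) ^ m₁ = s * a₂ + t * ((N : ℝ) + 2) ^ m₂)
    (e₂ : s * a₂ + t * ((N : ℝ) + 2) ^ m₂ = s * a₃ + t * ((N : ℝ) + 2) ^ m₃) : False := by
  have e₃ := e₁.trans e₂
  rcases lt_or_gt_of_ne h12 with l12 | l12 <;> rcases lt_or_gt_of_ne h13 with l13 | l13 <;>
    rcases lt_or_gt_of_ne h23 with l23 | l23
  · exact no_three_sorted hs ht h₂ l12 l23 e₁ e₂
  · exact no_three_sorted hs ht h₃ l13 l23 e₃ e₂.symm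
  · omega
  · exact no_three_sorted hs ht h₁ l13 l12 e₃.symm e₁
  · exact no_three_sorted hs ht h₁ l12 l13 e₁.symm e₃
  · omega
  · exact no_three_sorted hs ht h₃ l23 l13 e₂ e₃.symm
  · exact no_three_sorted hs ht h₂ l23 l12 e₂.symm e₁.symm

/-- Height of a vertex in the drawing. -/
noncomputable def hgt (Γ : Gad) (y : Γ.V → ℕ) (v : Γ.V) : ℝ :=
  if Even (Γ.lay v) then (y v : ℝ) else (((univ.sup y : ℕ) : ℝ) + 2) ^ y v

/-- Position of a vertex in the drawing. -/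
noncomputable def pos (Γ : Gad) (y : Γ.V → ℕ) (v : Γ.V) : ℝ × ℝ := (Γ.lay v, hgt Γ y v)

theorem hgt_lt {Γ : Gad} {y : Γ.V → ℕ} {u v : Γ.V} (h : Γ.lay u = Γ.lay v) :
    hgt Γ y u < hgt Γ y v ↔ y u < y v := by
  unfold hgt
  rw [h]
  split_ifs
  · exact Nat.cast_lt
  · apply pow_lt_pow_iff_right₀
    have : (0 : ℝ) ≤ ((univ.sup y : ℕ) : ℝ) := Nat.cast_nonneg _
    linarith

theorem hgt_inj {Γ : Gad} {y : Γ.V → ℕ} (hy : LayInj Γ y) {u v : Γ.V} (h : Γ.lay u = Γ.lay v)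
    (e : hgt Γ y u = hgt Γ y v) : u = v := by
  apply hy u v h
  rcases lt_trichotomy (y u) (y v) with l | l | l
  · exact absurd e ((hgt_lt h).2 l).ne
  · exact l
  · exact absurd e.symm ((hgt_lt h.symm).2 l).ne

theorem mem_seg {Γ : Gad} {y : Γ.V → ℕ} {u v : Γ.V} (h : Γ.lay v = Γ.lay u + 1) {q : ℝ × ℝ}
    (hq : q ∈ openSegment ℝ (pos Γ y u) (pos Γ y v)) :
    ∃ t : ℝ, 0 < t ∧ t < 1 ∧ q.1 = Γ.lay u + t ∧ q.2 = (1 - t) * hgt Γ y u + t * hgt Γ y v := by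
  obtain ⟨a, b, ha, hb, hab, rfl⟩ := hq
  have : a = 1 - b := by linarith
  subst this
  refine ⟨b, hb, by linarith, ?_, ?_⟩
  · simp [pos, h]; ring
  · simp [pos]

theorem nat_add_frac {i j : ℕ} {s t : ℝ} (hs : 0 ≤ s) (hs' : s < 1) (ht : 0 ≤ t) (ht' : t < 1)
    (h : (i : ℝ) + s = j + t) : i = j ∧ s = t := by
  have h1 : (i : ℝ) < j + 1 := by linarith
  have h2 : (j : ℝ) < i + 1 := by linarith
  have h1' : i < j + 1 := by exact_mod_cast h1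
  have h2' : j < i + 1 := by exact_mod_cast h2
  have : i = j := by omega
  subst this
  exact ⟨rfl, by linarith⟩

theorem orient {Γ : Gad} {H : SimpleGraph Γ.V} (hH : H ≤ Γ.G) (p : Γ.V → ℝ × ℝ) {u v : Γ.V}
    (h : H.Adj u v) : ∃ a b, (a, b) ∈ Ed Γ H ∧ s(u, v) = s(a, b) ∧
      openSegment ℝ (p u) (p v) = openSegment ℝ (p a) (p b) := by
  rcases Γ.adj_lay u v (hH h) with e | e
  · exact ⟨u, v, mem_Ed.2 ⟨h, e⟩, rfl, rfl⟩
  · exact ⟨v, u, mem_Ed.2 ⟨h.symm, e⟩, Sym2.eq_swap, openSegment_symm _ _ _⟩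

theorem meet {Γ : Gad} {H : SimpleGraph Γ.V} {y : Γ.V → ℕ} (hy : LayInj Γ y) {a b a' b' : Γ.V}
    (h : (a, b) ∈ Ed Γ H) (h' : (a', b') ∈ Ed Γ H) (hne : s(a, b) ≠ s(a', b')) {q : ℝ × ℝ}
    (hq : q ∈ openSegment ℝ (pos Γ y a) (pos Γ y b))
    (hq' : q ∈ openSegment ℝ (pos Γ y a') (pos Γ y b')) :
    ((a, b), (a', b')) ∈ Xs Γ H y ∨ ((a', b'), (a, b)) ∈ Xs Γ H y := by
  have l := (mem_Ed.1 h).2
  have l' := (mem_Ed.1 h').2
  obtain ⟨t, t0, t1, e1, e2⟩ := mem_seg l hq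
  obtain ⟨t', t0', t1', e1', e2'⟩ := mem_seg l' hq'
  obtain ⟨hl, rfl⟩ := nat_add_frac t0.le t1 t0'.le t1' (e1.symm.trans e1')
  have hl2 : Γ.lay b = Γ.lay b' := by omega
  have e := e2.symm.trans e2'
  have t2 : 0 < 1 - t := by linarith
  rcases lt_trichotomy (hgt Γ y a) (hgt Γ y a') with c | c | c
  · refine Or.inl (mem_Xs.2 ⟨h, h', hl, (hgt_lt hl).1 c, (hgt_lt hl2.symm).1 ?_⟩)
    by_contra hc
    have := mul_lt_mul_of_pos_left c t2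
    have := mul_le_mul_of_nonneg_left (not_lt.1 hc) t0.le
    linarith
  · exfalso
    have c' : hgt Γ y b = hgt Γ y b' := by
      rw [c] at e
      exact mul_left_cancel₀ t0.ne' (by linarith)
    exact hne (by rw [hgt_inj hy hl c, hgt_inj hy hl2 c'])
  · refine Or.inr (mem_Xs.2 ⟨h', h, hl.symm, (hgt_lt hl.symm).1 c, (hgt_lt hl2).1 ?_⟩)
    by_contra hc
    have := mul_lt_mul_of_pos_left c t2
    have := mul_le_mul_of_nonneg_left (not_lt.1 hc) t0.le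
    linarith

theorem meet_ne {Γ : Gad} {H : SimpleGraph Γ.V} {y : Γ.V → ℕ} (hy : LayInj Γ y)
    {a b a' b' : Γ.V} (h : (a, b) ∈ Ed Γ H) (h' : (a', b') ∈ Ed Γ H)
    (hne : s(a, b) ≠ s(a', b')) {q : ℝ × ℝ}
    (hq : q ∈ openSegment ℝ (pos Γ y a) (pos Γ y b))
    (hq' : q ∈ openSegment ℝ (pos Γ y a') (pos Γ y b')) :
    Γ.lay a = Γ.lay a' ∧ y a ≠ y a' ∧ y b ≠ y b' := by
  rcases meet hy h h' hne hq hq' with c | c <;> obtain ⟨-, -, c1, c2, c3⟩ := mem_Xs.1 c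
  · exact ⟨c1, c2.ne, c3.ne'⟩
  · exact ⟨c1.symm, c2.ne', c3.ne⟩

theorem straight {Γ : Gad} {H : SimpleGraph Γ.V} (hH : H ≤ Γ.G) {y : Γ.V → ℕ}
    (hy : LayInj Γ y) : IsStraightDrawing H (pos Γ y) := by
  refine ⟨?_, ?_, ?_⟩
  · intro u v h
    simp only [pos, Prod.mk.injEq, Nat.cast_inj] at h
    exact hgt_inj hy h.1 h.2
  · intro u v w huv hw
    obtain ⟨a, b, hab, -, e⟩ := orient hH (pos Γ y) huv
    rw [e] at hw
    obtain ⟨t, t0, t1, e1, -⟩ := mem_seg (mem_Ed.1 hab).2 hw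
    have := (nat_add_frac (i := Γ.lay w) (j := Γ.lay a) le_rfl one_pos t0.le t1
      (by simpa [pos] using e1)).2
    exact t0.ne this
  · intro u₁ v₁ u₂ v₂ u₃ v₃ h₁ h₂ h₃ n12 n13 n23
    obtain ⟨a₁, b₁, d₁, s₁, e₁⟩ := orient hH (pos Γ y) h₁
    obtain ⟨a₂, b₂, d₂, s₂, e₂⟩ := orient hH (pos Γ y) h₂
    obtain ⟨a₃, b₃, d₃, s₃, e₃⟩ := orient hH (pos Γ y) h₃
    rw [s₁, s₂] at n12
    rw [s₁, s₃] at n13
    rw [s₂, s₃] at n23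
    rw [e₁, e₂, e₃, Set.eq_empty_iff_forall_notMem]
    rintro q ⟨⟨q₁, q₂⟩, q₃⟩
    obtain ⟨l12, x12, y12⟩ := meet_ne hy d₁ d₂ n12 q₁ q₂
    obtain ⟨l13, x13, y13⟩ := meet_ne hy d₁ d₃ n13 q₁ q₃
    obtain ⟨-, x23, y23⟩ := meet_ne hy d₂ d₃ n23 q₂ q₃
    have l₁ := (mem_Ed.1 d₁).2
    have l₂ := (mem_Ed.1 d₂).2
    have l₃ := (mem_Ed.1 d₃).2
    obtain ⟨t, t0, t1, f₁, g₁⟩ := mem_seg l₁ q₁
    obtain ⟨t₂, t0₂, t1₂, f₂, g₂⟩ := mem_seg l₂ q₂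
    obtain ⟨t₃, t0₃, t1₃, f₃, g₃⟩ := mem_seg l₃ q₃
    obtain ⟨-, rfl⟩ := nat_add_frac t0.le t1 t0₂.le t1₂ (f₁.symm.trans f₂)
    obtain ⟨-, rfl⟩ := nat_add_frac t0.le t1 t0₃.le t1₃ (f₁.symm.trans f₃)
    have t2 : 0 < 1 - t := by linarith
    have hb : ∀ v, y v ≤ univ.sup y := fun v => le_sup (mem_univ v)
    have E12 := g₁.symm.trans g₂
    have E23 := g₂.symm.trans g₃
    unfold hgt at E12 E23
    rw [l₁, l₂, ← l12] at E12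
    rw [l₂, l₃, ← l12, ← l13] at E23
    by_cases ev : Even (Γ.lay a₁)
    · have od : ¬ Even (Γ.lay a₁ + 1) := by rw [Nat.even_add_one]; exact not_not.2 ev
      simp only [if_pos ev, if_neg od] at E12 E23
      exact no_three t2 t0 (hb a₁) (hb a₂) (hb a₃) y12 y13 y23 E12 E23
    · have od : Even (Γ.lay a₁ + 1) := by rw [Nat.even_add_one]; exact ev
      simp only [if_neg ev, if_pos od] at E12 E23
      exact no_three t0 t2 (hb b₁) (hb b₂) (hb b₃) x12 x13 x23 (by linarith) (by linarith)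

theorem crossings_le {Γ : Gad} {H : SimpleGraph Γ.V} (hH : H ≤ Γ.G) {y : Γ.V → ℕ}
    (hy : LayInj Γ y) : (crossings H (pos Γ y)).ncard ≤ (Xs Γ H y).card := by
  have : crossings H (pos Γ y) ⊆
      ↑((Xs Γ H y).image (fun q => s(s(q.1.1, q.1.2), s(q.2.1, q.2.2)))) := by
    rintro _ ⟨u, v, u', v', h, h', hne, rfl, q, hq, hq'⟩
    obtain ⟨a, b, d, s₁, e⟩ := orient hH (pos Γ y) h
    obtain ⟨a', b', d', s₂, e'⟩ := orient hH (pos Γ y) h'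
    rw [s₁, s₂] at hne ⊢
    rw [e] at hq
    rw [e'] at hq'
    rcases meet hy d d' hne hq hq' with c | c
    · exact mem_coe.2 (mem_image.2 ⟨_, c, rfl⟩)
    · exact mem_coe.2 (mem_image.2 ⟨_, c, Sym2.eq_swap⟩)
  refine (Set.ncard_le_ncard this (finite_toSet _)).trans ?_
  rw [Set.ncard_coe_finset]
  exact card_image_le

theorem Ed_le {Γ : Gad} (H : SimpleGraph Γ.V) : (Ed Γ H).card ≤ H.edgeSet.ncard := by
  rw [← Set.ncard_coe_finset]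
  refine Set.ncard_le_ncard_of_injOn (fun e => s(e.1, e.2)) ?_ ?_ (Set.toFinite _)
  · rintro ⟨u, v⟩ h
    exact (mem_Ed.1 h).1
  · rintro ⟨u, v⟩ h ⟨u', v'⟩ h' e
    have l := (mem_Ed.1 h).2
    have l' := (mem_Ed.1 h').2
    rcases Sym2.eq_iff.1 e with ⟨e1, e2⟩ | ⟨e1, e2⟩
    · exact Prod.ext e1 e2
    · simp only at e1 e2
      subst e1 e2
      omega

theorem drawing_of_crInv {M g : ℕ} {Γ : Gad} (h : CrInv M g Γ) (H : SimpleGraph Γ.V)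
    (hH : H ≤ Γ.G) : ∃ p : Γ.V → ℝ × ℝ, IsStraightDrawing H p ∧
      M * (crossings H p).ncard ≤ H.edgeSet.ncard := by
  obtain ⟨y, hy, hX⟩ := h H hH
  refine ⟨pos Γ y, straight hH hy, ?_⟩
  have := Nat.mul_le_mul_left M (crossings_le hH hy)
  have := Ed_le H
  omega

end Pool.Agent.Lib.MP_e7c4c5_co
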