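import Pool.Agent.Lib.MP_e7c4c5_co.Defs
import Pool.Agent.Lib.MP_e7c4c5_co.Gad

/-!
Density of shallow minors of the nested gadgets.
-/

set_option autoImplicit false

namespace Pool.Agent.Lib.MP_e7c4c5_co

/-- Reachability in `k` steps through vertices satisfying `P`. -/
inductive LR {V : Type} (G : SimpleGraph V) (P : V → Prop) (v : V) : ℕ → V → Prop
  | refl : LR G P v 0 v
  | tail {k : ℕ} {u w : V} : LR G P v k u → G.Adj u w → P w → LR G P v (k + 1) w

theorem LR.walk {V : Type} {G : SimpleGraph V} {P : V → Prop} {v a b : V} (p : G.Walk a b) :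
    ∀ {k : ℕ}, LR G P v k a → (∀ x ∈ p.support, P x) → LR G P v (k + p.length) b := by
  induction p with
  | nil => intro k h _; simpa using h
  | cons hadj q ih =>
    intro k h hP
    have h1 := h.tail hadj (hP _ (by simp))
    have := ih h1 (fun x hx => hP x (by simp [hx]))
    simpa [Nat.add_assoc, Nat.add_comm 1] using this

theorem LR.hit {V : Type} {G : SimpleGraph V} {dep : V → ℕ} {d : ℕ} {v b c : V}
    (q : G.Walk b c) (hc : dep c ≤ d) :
    ∀ {k : ℕ} {a : V}, LR G (fun x => d ≤ dep x) v k a → G.Adj a b →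
      ∃ k' u w, k' ≤ k + q.length ∧ LR G (fun x => d ≤ dep x) v k' u ∧ G.Adj u w ∧
        dep w ≤ d ∧ w ∈ q.support := by
  induction q with
  | nil => intro k a h hab; exact ⟨k, a, _, by simp, h, hab, hc, by simp⟩
  | @cons b b' c hadj q ih =>
    intro k a h hab
    by_cases hb : dep b ≤ d
    · exact ⟨k, a, b, by omega, h, hab, hb, by simp⟩
    · obtain ⟨k', u, w, h1, h2, h3, h4, h5⟩ := ih hc (h.tail hab (by omega)) hadj
      exact ⟨k', u, w, by simp; omega, h2, h3, h4, by simp [h5]⟩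

theorem minor_bound {V W : Type} [Finite V] [Fintype W] (G : SimpleGraph V) (dep : V → ℕ)
    (r K : ℕ)
    (hU : ∀ v, ∃ U : Finset V, U.card ≤ K ∧ ∀ k u w, k ≤ 4 * r →
      LR G (fun x => dep v ≤ dep x) v k u → G.Adj u w → dep w ≤ dep v → w ≠ v → w ∈ U)
    (H : SimpleGraph W) (hH : IsShallowMinor r H G) :
    H.edgeSet.ncard ≤ K * Fintype.card W := by
  classical
  obtain ⟨B, z, hdis, hz, hwalk, hadj⟩ := hH
  have hmin : ∀ i, ∃ v ∈ B i, ∀ x ∈ B i, dep v ≤ dep x := fun i =>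
    Set.exists_min_image (B i) dep (Set.toFinite _) ⟨z i, hz i⟩
  choose m hmB hm using hmin
  choose U hUc hUm using hU
  have hin : ∀ i, ∀ a ∈ B i, ∀ b ∈ B i, ∃ p : G.Walk a b, p.length ≤ 2 * r ∧
      ∀ x ∈ p.support, x ∈ B i := by
    intro i a ha b hb
    obtain ⟨p, hp, hp'⟩ := hwalk i a ha
    obtain ⟨q, hq, hq'⟩ := hwalk i b hb
    refine ⟨p.reverse.append q, by simp; omega, ?_⟩
    intro x hx
    rw [SimpleGraph.Walk.mem_support_append_iff] at hx
    rcases hx with hx | hx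
    · exact hp' x (by simpa using hx)
    · exact hq' x hx
  let out : W → Finset W := fun i => Finset.univ.filter (fun j => H.Adj i j ∧ dep (m j) ≤ dep (m i))
  have hout : ∀ i, (out i).card ≤ K := by
    intro i
    have key : ∀ j ∈ out i, ∃ w ∈ U (m i), w ∈ B j := by
      intro j hj
      obtain ⟨hij, hd⟩ := (Finset.mem_filter.1 hj).2
      obtain ⟨u, hu, w, hw, huw⟩ := hadj i j hij
      obtain ⟨p, hp, hp'⟩ := hin i _ (hmB i) u hu
      obtain ⟨q, hq, hq'⟩ := hin j w hw _ (hmB j)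
      have h1 := LR.walk (P := fun x => dep (m i) ≤ dep x) p LR.refl
        (fun x hx => hm i x (hp' x hx))
      obtain ⟨k', u', w', h2, h3, h4, h5, h6⟩ := LR.hit q hd h1 huw
      refine ⟨w', hUm (m i) k' u' w' (by omega) h3 h4 h5 ?_, hq' _ h6⟩
      intro e
      exact Set.disjoint_left.1 (hdis i j hij.ne) (hmB i) (e ▸ hq' _ h6)
    have : Nonempty V := ⟨m i⟩
    choose! g hg hgB using key
    refine le_trans (Finset.card_le_card_of_injOn g hg ?_) (hUc (m i))
    intro j hj j' hj' e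
    by_contra hne
    exact Set.disjoint_left.1 (hdis j j' hne) (hgB j hj) (e ▸ hgB j' hj')
  have hsub : H.edgeSet ⊆ ↑(Finset.univ.biUnion (fun i => (out i).image (fun j => s(i, j)))) := by
    intro e he
    induction e using Sym2.ind with
    | _ i j =>
      have hij : H.Adj i j := he
      simp only [Finset.coe_biUnion, Finset.coe_univ, Set.mem_univ, Set.iUnion_true,
        Set.mem_iUnion, Finset.mem_coe, Finset.mem_image]
      rcases le_total (dep (m j)) (dep (m i)) with h | h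
      · exact ⟨i, j, by simp [out, hij, h], rfl⟩
      · exact ⟨j, i, by simp [out, hij.symm, h], Sym2.eq_swap⟩
  calc H.edgeSet.ncard ≤ _ := Set.ncard_le_ncard hsub (Finset.finite_toSet _)
    _ = _ := Set.ncard_coe_finset _
    _ ≤ ∑ i, ((out i).image (fun j => s(i, j))).card := Finset.card_biUnion_le
    _ ≤ ∑ _i : W, K := Finset.sum_le_sum (fun i _ => Finset.card_image_le.trans (hout i))
    _ = K * Fintype.card W := by simp [Nat.mul_comm]

/-- Nesting depth of a vertex. -/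
def dep (Γ : Gad) (v : Γ.V) : ℕ := min (Γ.lay v) (2 * Γ.D - Γ.lay v)

@[simp] theorem dep_vA {n : ℕ} {Γ : Gad} (x : Fin n) : dep (step n Γ) (vA x) = 0 := by
  simp [dep]
@[simp] theorem dep_vB {n : ℕ} {Γ : Gad} (x : Fin n) : dep (step n Γ) (vB x) = 0 := by
  simp only [dep, lay_vB, step_D]; omega
@[simp] theorem dep_vC {n : ℕ} {Γ : Gad} (x y : Fin n) (v : Γ.V) :
    dep (step n Γ) (vC x y v) = dep Γ v + 1 := by
  have := Γ.lay_le v
  simp only [dep, lay_vC, step_D]; omega

theorem dep_adj {Γ : Gad} {u w : Γ.V} (h : Γ.G.Adj u w) :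
    dep Γ w = dep Γ u + 1 ∨ dep Γ u = dep Γ w + 1 := by
  have := Γ.adj_lay u w h
  have := Γ.lay_le u
  have := Γ.lay_le w
  simp only [dep]; omega

/-- Each vertex off the middle layer has at most one neighbour of smaller depth. -/
def ParInv (Γ : Gad) : Prop :=
  ∀ u w w', Γ.G.Adj u w → Γ.G.Adj u w' → dep Γ w < dep Γ u → dep Γ w' < dep Γ u →
    dep Γ u < Γ.D → w = w'

theorem parInv_base : ParInv base := fun _ _ _ h => h.elim

theorem parInv_step {n : ℕ} {Γ : Gad} (h : ParInv Γ) : ParInv (step n Γ) := by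
  intro u w w' h1 h2 d1 d2 d3
  rcases sv_cases u with ⟨x, rfl⟩ | ⟨x, rfl⟩ | ⟨x, y, u, rfl⟩
  · simp at d1
  · simp at d1
  have hu : dep Γ u = min (Γ.lay u) (2 * Γ.D - Γ.lay u) := rfl
  rcases sv_cases w with ⟨a, rfl⟩ | ⟨a, rfl⟩ | ⟨a, b, w, rfl⟩ <;>
    rcases sv_cases w' with ⟨a', rfl⟩ | ⟨a', rfl⟩ | ⟨a', b', w', rfl⟩ <;>
    simp only [adj_CA, adj_CB, adj_CC, dep_vA, dep_vB, dep_vC, step_D] at h1 h2 d1 d2 d3
  · rw [h1.1, h2.1]
  · omega
  · omega
  · omega
  · rw [h1.1, h2.1]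
  · omega
  · omega
  · omega
  · obtain ⟨rfl, rfl, h1⟩ := h1
    obtain ⟨rfl, rfl, h2⟩ := h2
    rw [h u w w' h1 h2 (by omega) (by omega) (by omega)]

theorem short_up {Γ : Gad} (h : ParInv Γ) (v : Γ.V) (l : ℕ) (hl : dep Γ v + l < Γ.D) :
    ∃ U : Finset Γ.V, U.card ≤ 1 ∧ ∀ k u w, k ≤ l →
      LR Γ.G (fun x => dep Γ v ≤ dep Γ x) v k u → Γ.G.Adj u w → dep Γ w ≤ dep Γ v → w ≠ v →
        w ∈ U := by
  classical
  let Ds : Γ.V → Prop := Relation.ReflTransGen (fun a b => Γ.G.Adj a b ∧ dep Γ a < dep Γ b) v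
  have hDs : ∀ u, Ds u → u = v ∨ dep Γ v < dep Γ u := by
    intro u hu
    induction hu with
    | refl => exact Or.inl rfl
    | tail _ hab ih =>
      rcases ih with rfl | ih
      · exact Or.inr hab.2
      · exact Or.inr (ih.trans hab.2)
  have hpar : ∀ u w, Ds u → dep Γ u < Γ.D → Γ.G.Adj u w → dep Γ w < dep Γ u → u ≠ v → Ds w := by
    intro u w hu hD hadj hlt hne
    rcases Relation.ReflTransGen.cases_tail hu with e | ⟨p, hp, hpu⟩
    · exact absurd e hne
    · rw [h u w p hadj hpu.1.symm hlt hpu.2 hD]; exact hp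
  have hLR : ∀ k u, LR Γ.G (fun x => dep Γ v ≤ dep Γ x) v k u → k ≤ l →
      Ds u ∧ dep Γ u ≤ dep Γ v + k := by
    intro k u hu
    induction hu with
    | refl => intro _; exact ⟨Relation.ReflTransGen.refl, by omega⟩
    | @tail k u w _ hadj hw ih =>
      intro hk
      obtain ⟨i1, i2⟩ := ih (by omega)
      rcases dep_adj hadj with e | e
      · exact ⟨i1.tail ⟨hadj, by omega⟩, by omega⟩
      · refine ⟨hpar u w i1 (by omega) hadj (by omega) ?_, by omega⟩
        rintro rfl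
        omega
  refine ⟨Finset.univ.filter (fun w => Γ.G.Adj v w ∧ dep Γ w < dep Γ v), ?_, ?_⟩
  · rw [Finset.card_le_one]
    intro a ha b hb
    rw [Finset.mem_filter] at ha hb
    exact h v a b ha.2.1 hb.2.1 ha.2.2 hb.2.2 (by omega)
  · intro k u w hk hu hadj hd hne
    obtain ⟨i1, i2⟩ := hLR k u hu hk
    by_cases e : u = v
    · subst e
      have := dep_adj hadj
      exact Finset.mem_filter.2 ⟨Finset.mem_univ _, hadj, by omega⟩
    · rcases hDs u i1 with e' | e'
      · exact absurd e' e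
      · rcases hDs w (hpar u w i1 (by omega) hadj (by omega) e) with e'' | e''
        · exact absurd e'' hne
        · omega

/-- Bound on the vertices of small depth seen from a vertex. -/
def UpInv (κ : ℕ → ℕ) (Γ : Gad) : Prop :=
  ∀ v, ∃ U : Finset Γ.V, U.card + (if dep Γ v = 0 then 2 else 0) ≤ κ (Γ.D - dep Γ v) ∧
    ∀ k u w, LR Γ.G (fun x => dep Γ v ≤ dep Γ x) v k u → Γ.G.Adj u w → dep Γ w ≤ dep Γ v →
      w ≠ v → w ∈ U

theorem upInv_base {κ : ℕ → ℕ} (h : 2 ≤ κ 0) : UpInv κ base := by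
  intro v
  refine ⟨∅, ?_, fun _ _ _ _ h => h.elim⟩
  have : base.D - dep base v = 0 := Nat.zero_sub _
  rw [this]
  split_ifs <;> simp [h]

theorem upInv_step {κ : ℕ → ℕ} {n : ℕ} {Γ : Gad} (h : UpInv κ Γ)
    (hκ : 2 * n + 1 ≤ κ (Γ.D + 1)) : UpInv κ (step n Γ) := by
  classical
  have top : ∀ v : (step n Γ).V, dep (step n Γ) v = 0 →
      ∃ U : Finset (step n Γ).V, U.card + 2 ≤ 2 * n + 1 ∧
        ∀ w, dep (step n Γ) w = 0 → w ≠ v → w ∈ U := by
    intro v hv
    let T : Finset (step n Γ).V := Finset.univ.image vA ∪ Finset.univ.image vB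
    have hT : ∀ w, dep (step n Γ) w = 0 → w ∈ T := by
      intro w hw
      rcases sv_cases w with ⟨x, rfl⟩ | ⟨x, rfl⟩ | ⟨x, y, u, rfl⟩
      · simp [T]
      · simp [T]
      · simp at hw
    have hc : T.card ≤ n + n := by
      refine (Finset.card_union_le _ _).trans (Nat.add_le_add ?_ ?_) <;>
        exact Finset.card_image_le.trans (by simp)
    refine ⟨T.erase v, ?_, fun w hw hne => Finset.mem_erase.2 ⟨hne, hT w hw⟩⟩
    have := Finset.card_erase_add_one (hT v hv)
    omega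
  intro v
  by_cases hv : dep (step n Γ) v = 0
  · obtain ⟨U, hU, hU'⟩ := top v hv
    refine ⟨U, ?_, fun k u w _ _ hd hne => hU' w (by omega) hne⟩
    rw [if_pos hv, hv]
    exact hU.trans hκ
  rcases sv_cases v with ⟨x, rfl⟩ | ⟨x, rfl⟩ | ⟨x, y, v, rfl⟩
  · simp at hv
  · simp at hv
  obtain ⟨U, hU, hU'⟩ := h v
  have hLR : ∀ k u, LR (step n Γ).G (fun z => dep (step n Γ) (vC x y v) ≤ dep (step n Γ) z)
      (vC x y v) k u → ∃ u', u = vC x y u' ∧ LR Γ.G (fun z => dep Γ v ≤ dep Γ z) v k u' ∧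
        dep Γ v ≤ dep Γ u' := by
    intro k u hu
    induction hu with
    | refl => exact ⟨v, rfl, LR.refl, le_rfl⟩
    | @tail k u w _ hadj hw ih =>
      obtain ⟨u', rfl, i1, -⟩ := ih
      rcases sv_cases w with ⟨a, rfl⟩ | ⟨a, rfl⟩ | ⟨a, b, w, rfl⟩
      · simp at hw
      · simp at hw
      · obtain ⟨rfl, rfl, hadj'⟩ := (adj_CC n Γ _ _ _ _ _ _).1 hadj
        have hw' : dep Γ v ≤ dep Γ w := by simpa using hw
        exact ⟨w, rfl, i1.tail hadj' hw', hw'⟩
  refine ⟨U.image (vC x y) ∪ (if dep Γ v = 0 then {vA x, vB y} else ∅), ?_, ?_⟩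
  · rw [if_neg hv]
    have e : (step n Γ).D - dep (step n Γ) (vC x y v) = Γ.D - dep Γ v := by simp
    rw [e]
    refine le_trans ?_ hU
    refine (Finset.card_union_le _ _).trans (Nat.add_le_add Finset.card_image_le ?_)
    split_ifs
    · exact Finset.card_le_two
    · simp
  · intro k u w hu hadj hd hne
    obtain ⟨u', rfl, i1, i2⟩ := hLR k u hu
    have hu' : dep Γ u' = min (Γ.lay u') (2 * Γ.D - Γ.lay u') := rfl
    rcases sv_cases w with ⟨a, rfl⟩ | ⟨a, rfl⟩ | ⟨a, b, w, rfl⟩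
    · obtain ⟨rfl, h0⟩ := (adj_CA n Γ _ _ _ _).1 hadj
      have : dep Γ v = 0 := by omega
      simp [this]
    · obtain ⟨rfl, h0⟩ := (adj_CB n Γ _ _ _ _).1 hadj
      have : dep Γ v = 0 := by omega
      simp [this]
    · obtain ⟨rfl, rfl, hadj'⟩ := (adj_CC n Γ _ _ _ _ _ _).1 hadj
      refine Finset.mem_union_left _ (Finset.mem_image_of_mem _ (hU' k u' _ i1 hadj' ?_ ?_))
      · simpa using hd
      · rintro rfl; exact hne rfl

theorem parInv_tower₁ (k : ℕ) : ParInv (tower₁ k) := by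
  induction k with
  | zero => exact parInv_base
  | succ k ih => exact parInv_step ih

theorem parInv_tower₂ (n R k : ℕ) : ParInv (tower₂ n R k) := by
  induction k with
  | zero => exact parInv_tower₁ R
  | succ k ih => exact parInv_step ih

theorem upInv_tower₁ {κ : ℕ → ℕ} (k : ℕ) (h : ∀ j ≤ k, 3 ≤ κ j) : UpInv κ (tower₁ k) := by
  induction k with
  | zero => exact upInv_base (by have := h 0 le_rfl; omega)
  | succ k ih =>
    exact upInv_step (ih (fun j hj => h j (by omega))) (by rw [tower₁_D]; exact h _ le_rfl)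

theorem upInv_tower₂ {κ : ℕ → ℕ} (n R k : ℕ) (h : ∀ j ≤ R, 3 ≤ κ j)
    (h' : ∀ j, R < j → 2 * n + 1 ≤ κ j) : UpInv κ (tower₂ n R k) := by
  induction k with
  | zero => exact upInv_tower₁ R h
  | succ k ih => exact upInv_step ih (h' _ (by rw [tower₂_D]; omega))

/-- Shallow minors of the tower: density at most `2 n + 3` always, and at most `3` when the depth
is small compared with the inner path. -/
theorem tower_minor (n R L r K : ℕ) (hK : 3 ≤ K) (hr : 4 * r ≤ R ∨ 2 * n + 1 ≤ K)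
    {W : Type} [Fintype W] (H : SimpleGraph W) (hH : IsShallowMinor r H (tower₂ n R L).G) :
    H.edgeSet.ncard ≤ K * Fintype.card W := by
  refine minor_bound _ (dep (tower₂ n R L)) r K ?_ H hH
  intro v
  have hup := upInv_tower₂ (κ := fun j => if j ≤ R then 3 else 2 * n + 1) n R L
    (fun j hj => by simp [hj]) (fun j hj => by simp [Nat.not_le.2 hj]) v
  obtain ⟨U, hU, hU'⟩ := hup
  by_cases hc : (tower₂ n R L).D - dep (tower₂ n R L) v ≤ R
  · refine ⟨U, ?_, fun k u w _ => hU' k u w⟩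
    simp only [hc, if_true] at hU
    omega
  rcases hr with hr | hr
  · obtain ⟨U₁, h1, h2⟩ := short_up (parInv_tower₂ n R L) v (4 * r) (by omega)
    exact ⟨U₁, by omega, h2⟩
  · refine ⟨U, ?_, fun k u w _ => hU' k u w⟩
    simp only [hc, if_false] at hU
    omega

end Pool.Agent.Lib.MP_e7c4c5_co
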