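import Pool.Agent.Lib.MP_e7c4c5_co.Defs
import Pool.Agent.Lib.MP_e7c4c5_co.Gad

/-!
Counting colour words on routes of the nested gadgets.
-/

set_option autoImplicit false

namespace Pool.Agent.Lib.MP_e7c4c5_co

open List

/-- List form of nonrepetitiveness. -/
def NR {V α : Type} (G : SimpleGraph V) (φ : V → α) : Prop :=
  ∀ l₁ l₂ : List V, l₁ ≠ [] → (l₁ ++ l₂).Nodup → (l₁ ++ l₂).IsChain G.Adj →
    l₁.map φ ≠ l₂.map φ

theorem IsNonrepetitive.nr {V α : Type} {G : SimpleGraph V} {φ : V → α}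
    (h : IsNonrepetitive G φ) : NR G φ := by
  intro l₁ l₂ hne hnd hch heq
  have hne' : l₁ ++ l₂ ≠ [] := by simp [hne]
  have hlen : l₁.length = l₂.length := by simpa using congrArg List.length heq
  have hs := SimpleGraph.Walk.support_ofSupport (G := G) hne' hch
  have := h _ _ (SimpleGraph.Walk.ofSupport (l₁ ++ l₂) hne' hch)
    (by rw [SimpleGraph.Walk.isPath_def, hs]; exact hnd) l₁.length
    (List.length_pos_iff.mpr hne) (by rw [hs]; simp; omega)
  rw [hs] at this
  simp only [List.take_left', List.drop_left'] at this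
  exact this heq

theorem NR.comp {V W α : Type} {G : SimpleGraph V} {H : SimpleGraph W} {φ : V → α}
    (h : NR G φ) (f : W → V) (hf : Function.Injective f)
    (hadj : ∀ a b, H.Adj a b → G.Adj (f a) (f b)) : NR H (φ ∘ f) := by
  intro l₁ l₂ hne hnd hch heq
  refine h (l₁.map f) (l₂.map f) (by simpa using hne) ?_ ?_ ?_
  · rw [← List.map_append]; exact hnd.map hf
  · rw [← List.map_append]; exact List.isChain_map_of_isChain f hadj hch
  · simpa [List.map_map] using heq

/-- A route runs through the layers `0, …, 2 D` in order. -/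
def IsRoute (Γ : Gad) (l : List Γ.V) : Prop :=
  l.IsChain Γ.G.Adj ∧ l.map Γ.lay = List.range (2 * Γ.D + 1)

theorem IsRoute.nodup {Γ : Gad} {l : List Γ.V} (h : IsRoute Γ l) : l.Nodup :=
  List.Nodup.of_map Γ.lay (by rw [h.2]; exact List.nodup_range)

theorem IsRoute.length {Γ : Gad} {l : List Γ.V} (h : IsRoute Γ l) : l.length = 2 * Γ.D + 1 := by
  simpa using congrArg List.length h.2

theorem IsRoute.head {Γ : Gad} {l : List Γ.V} (h : IsRoute Γ l) :
    ∀ v ∈ l.head?, Γ.lay v = 0 := by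
  intro v hv
  have h2 := congrArg List.head? h.2
  rw [List.head?_map, List.range_succ_eq_map] at h2
  simp only [Option.mem_def] at hv
  simpa [hv] using h2

theorem IsRoute.last {Γ : Gad} {l : List Γ.V} (h : IsRoute Γ l) :
    ∀ v ∈ l.getLast?, Γ.lay v = 2 * Γ.D := by
  intro v hv
  have h2 := congrArg List.getLast? h.2
  rw [List.getLast?_map, List.range_succ] at h2
  simp only [Option.mem_def] at hv
  simpa [hv] using h2

/-- Extension of a route of a copy to a route of the next gadget. -/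
def ext {n : ℕ} {Γ : Gad} (x y : Fin n) (l : List Γ.V) : List (step n Γ).V :=
  vA x :: (l.map (vC x y) ++ [vB y])

theorem IsRoute.ext {Γ : Gad} {l : List Γ.V} (h : IsRoute Γ l) {n : ℕ} (x y : Fin n) :
    IsRoute (step n Γ) (ext x y l) := by
  have hne : l ≠ [] := by
    intro h0; have := h.length; simp [h0] at this
  constructor
  · unfold MP_e7c4c5_co.ext
    rw [List.isChain_cons]
    refine ⟨?_, ?_⟩
    · intro w hw
      obtain ⟨a, t, rfl⟩ := List.exists_cons_of_ne_nil hne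
      simp only [List.map_cons, List.cons_append, List.head?_cons, Option.mem_def,
        Option.some.injEq] at hw
      subst hw
      exact (adj_AC n Γ x x y a).2 ⟨rfl, h.head a (by simp)⟩
    · refine List.IsChain.append ?_ (List.IsChain.singleton _) ?_
      · exact List.isChain_map_of_isChain _
          (fun a b hab => (adj_CC n Γ x y x y a b).2 ⟨rfl, rfl, hab⟩) h.1
      · intro a ha b hb
        rw [List.getLast?_map] at ha
        simp only [Option.mem_def, Option.map_eq_some_iff] at ha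
        obtain ⟨a', ha', rfl⟩ := ha
        simp only [List.head?_cons, Option.mem_def, Option.some.injEq] at hb
        subst hb
        exact (adj_CB n Γ y x y a').2 ⟨rfl, h.last a' ha'⟩
  · unfold MP_e7c4c5_co.ext
    have e : (2 * (step n Γ).D + 1) = (2 * Γ.D + 1) + 1 + 1 := by simp; ring
    rw [e, List.range_succ, List.range_succ_eq_map, ← h.2]
    simp only [List.map_cons, List.map_append, List.map_map, List.map_nil, List.cons_append]
    congr 1

theorem chainA {Γ : Gad} {l : List Γ.V} (h : IsRoute Γ l) {n : ℕ} (x y : Fin n)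
    (rest : List (step n Γ).V) (hr : List.IsChain (step n Γ).G.Adj (vB y :: rest)) :
    List.IsChain (step n Γ).G.Adj (vA x :: (l.map (vC x y) ++ vB y :: rest)) :=
  List.isChain_cons_split.2 ⟨(h.ext x y).1, hr⟩

theorem chainB {Γ : Gad} {l : List Γ.V} (h : IsRoute Γ l) {n : ℕ} (x y : Fin n)
    (rest : List (step n Γ).V) (hr : List.IsChain (step n Γ).G.Adj (vA x :: rest)) :
    List.IsChain (step n Γ).G.Adj (vB y :: ((l.map (vC x y)).reverse ++ vA x :: rest)) := by
  refine List.isChain_cons_split.2 ⟨?_, hr⟩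
  have h1 : List.IsChain (step n Γ).G.Adj (MP_e7c4c5_co.ext x y l).reverse := by
    rw [List.isChain_reverse]
    exact (h.ext x y).1.imp (fun a b hab => hab.symm)
  simpa [MP_e7c4c5_co.ext] using h1

/-- Four copies along a path of the complete bipartite graph cannot share one word. -/
theorem no_four {Γ : Gad} {n : ℕ} {α : Type} {φ : (step n Γ).V → α} (hφ : NR (step n Γ).G φ)
    {x₁ x₂ x₃ y₁ y₂ : Fin n} (h12 : x₁ ≠ x₂) (h32 : x₃ ≠ x₂) (hy : y₁ ≠ y₂)
    {l₁ l₂ l₃ l₄ : List Γ.V} (r₁ : IsRoute Γ l₁) (r₂ : IsRoute Γ l₂) (r₃ : IsRoute Γ l₃)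
    (r₄ : IsRoute Γ l₄)
    (e₂ : (ext x₁ y₁ l₁).map φ = (ext x₂ y₁ l₂).map φ)
    (e₃ : (ext x₁ y₁ l₁).map φ = (ext x₂ y₂ l₃).map φ)
    (e₄ : (ext x₁ y₁ l₁).map φ = (ext x₃ y₂ l₄).map φ) : False := by
  simp only [ext, List.map_cons, List.map_append, List.map_nil, List.cons.injEq] at e₂ e₃ e₄
  have f₂ := List.append_inj' e₂.2 rfl
  have f₃ := List.append_inj' e₃.2 rfl
  have f₄ := List.append_inj' e₄.2 rfl
  refine hφ (vA x₁ :: (l₁.map (vC x₁ y₁) ++ vB y₁ :: (l₂.map (vC x₂ y₁)).reverse))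
    (vA x₂ :: (l₃.map (vC x₂ y₂) ++ vB y₂ :: (l₄.map (vC x₃ y₂)).reverse)) (by simp) ?_ ?_ ?_
  · have inj : ∀ x y : Fin n, Function.Injective (vC x y : Γ.V → (step n Γ).V) := by
      intro x y a b hab; simpa using hab
    have n₁ := r₁.nodup.map (inj x₁ y₁)
    have n₂ := r₂.nodup.map (inj x₂ y₁)
    have n₃ := r₃.nodup.map (inj x₂ y₂)
    have n₄ := r₄.nodup.map (inj x₃ y₂)
    have hy' := hy.symm
    have h21 := h12.symm
    have h23 := h32.symm
    simp only [List.cons_append, List.append_assoc, List.nodup_cons, List.mem_append,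
      List.mem_cons, List.mem_map, List.mem_reverse, List.nodup_append, List.nodup_reverse,
      n₁, n₂, n₃, n₄]
    refine ⟨?_, trivial, ⟨?_, trivial, ⟨?_, trivial, ⟨?_, trivial⟩, ?_⟩, ?_⟩, ?_⟩
    · simp [h12]
    · simp [hy]
    · simp
    · simp
    · rintro _ ⟨a, -, rfl⟩ b (rfl | ⟨c, -, rfl⟩) <;> simp [h23]
    · rintro _ ⟨a, -, rfl⟩ b (rfl | ⟨c, -, rfl⟩ | rfl | ⟨c, -, rfl⟩) <;> simp [hy]
    · rintro _ ⟨a, -, rfl⟩ b (rfl | ⟨c, -, rfl⟩ | rfl | ⟨c, -, rfl⟩ | rfl | ⟨c, -, rfl⟩) <;>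
        simp [hy, h12]
  · have c₄ : List.IsChain (step n Γ).G.Adj (vB y₂ :: (l₄.map (vC x₃ y₂)).reverse) := by
      have := chainB r₄ x₃ y₂ [] (List.IsChain.singleton _)
      rw [← List.cons_append] at this
      exact this.left_of_append
    have c₃ := chainA r₃ x₂ y₂ _ c₄
    have c₂ := chainB r₂ x₂ y₁ _ c₃
    have c₁ := chainA r₁ x₁ y₁ _ c₂
    simpa using c₁
  · simp only [List.map_cons, List.map_append, List.map_reverse]
    rw [e₃.1, ← f₂.1, ← f₄.1, f₃.1]
    have := f₃.2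
    simp only [List.cons.injEq, and_true] at this
    rw [this]

theorem card_le_of_no_four {n : ℕ} (E : Finset (Fin n × Fin n))
    (h : ∀ x₁ x₂ x₃ y₁ y₂, x₁ ≠ x₂ → x₃ ≠ x₂ → y₁ ≠ y₂ → (x₁, y₁) ∈ E → (x₂, y₁) ∈ E →
      (x₂, y₂) ∈ E → (x₃, y₂) ∈ E → False) : E.card ≤ 2 * n := by
  classical
  let P : Fin n × Fin n → Prop := fun p => ∃ x, x ≠ p.1 ∧ (x, p.2) ∈ E
  have h1 : (E.filter P).card ≤ n := by
    have : (E.filter P).card ≤ (Finset.univ : Finset (Fin n)).card := by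
      refine Finset.card_le_card_of_injOn Prod.fst (fun _ _ => by simp) ?_
      rintro ⟨x, y⟩ hp ⟨x', y'⟩ hq hxx
      simp only [Finset.coe_filter, Set.mem_ofPred_eq] at hp hq
      simp only at hxx
      subst hxx
      by_contra hne
      have hy : y ≠ y' := fun e => hne (by rw [e])
      obtain ⟨x₁, h₁, m₁⟩ := hp.2
      obtain ⟨x₃, h₃, m₃⟩ := hq.2
      exact h x₁ x x₃ y y' h₁ h₃ hy m₁ hp.1 hq.1 m₃
    simpa using this
  have h2 : (E.filter (fun p => ¬ P p)).card ≤ n := by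
    have : (E.filter (fun p => ¬ P p)).card ≤ (Finset.univ : Finset (Fin n)).card := by
      refine Finset.card_le_card_of_injOn Prod.snd (fun _ _ => by simp) ?_
      rintro ⟨x, y⟩ hp ⟨x', y'⟩ hq hyy
      simp only [Finset.coe_filter, Set.mem_ofPred_eq] at hp hq
      simp only at hyy
      subst hyy
      by_contra hne
      have hx : x' ≠ x := fun e => hne (by rw [e])
      exact hp.2 ⟨x', hx, hq.1⟩
    simpa using this
  have := Finset.card_filter_add_card_filter_not (s := E) P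
  omega

/-- Every nonrepetitive colouring with colours in `α` shows at least `m` words on routes. -/
def Words (α : Type) (Γ : Gad) (m : ℕ) : Prop :=
  ∀ φ : Γ.V → α, NR Γ.G φ →
    ∃ S : Finset (List α), m ≤ S.card ∧ ∀ w ∈ S, ∃ l, IsRoute Γ l ∧ l.map φ = w

theorem words_base (α : Type) : Words α base 1 := by
  intro φ _
  refine ⟨{[φ ()]}, by simp, ?_⟩
  intro w hw
  rw [Finset.mem_singleton] at hw
  subst hw
  exact ⟨[()], ⟨List.IsChain.singleton _, rfl⟩, rfl⟩

theorem nr_copy {Γ : Gad} {n : ℕ} {α : Type} {φ : (step n Γ).V → α} (hφ : NR (step n Γ).G φ)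
    (x y : Fin n) : NR Γ.G (φ ∘ vC x y) :=
  hφ.comp (vC x y) (fun a b hab => by simpa using hab)
    (fun a b hab => (adj_CC n Γ x y x y a b).2 ⟨rfl, rfl, hab⟩)

theorem map_ext {Γ : Gad} {n : ℕ} {α : Type} (φ : (step n Γ).V → α) (x y : Fin n)
    (l : List Γ.V) :
    (ext x y l).map φ = φ (vA x) :: (l.map (φ ∘ vC x y) ++ [φ (vB y)]) := by
  simp [ext]

theorem words_step_one {α : Type} {Γ : Gad} {m : ℕ} (h : Words α Γ m) :
    Words α (step 1 Γ) m := by
  classical
  intro φ hφ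
  obtain ⟨S, hS, hw⟩ := h _ (nr_copy hφ 0 0)
  refine ⟨S.image (fun w => φ (vA 0) :: (w ++ [φ (vB 0)])), ?_, ?_⟩
  · rw [Finset.card_image_of_injective]
    · exact hS
    · intro a b hab; simpa using hab
  · intro w hw'
    obtain ⟨w', hw'', rfl⟩ := Finset.mem_image.1 hw'
    obtain ⟨l, hl, rfl⟩ := hw w' hw''
    exact ⟨_, hl.ext 0 0, map_ext φ 0 0 l⟩

theorem words_step {α : Type} {Γ : Gad} {m a : ℕ} (h : Words α Γ m) :
    Words α (step (2 * a) Γ) (a * m) := by
  classical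
  intro φ hφ
  choose S hS hw using fun p : Fin (2 * a) × Fin (2 * a) => h _ (nr_copy hφ p.1 p.2)
  let Ω : Finset (Σ _ : Fin (2 * a) × Fin (2 * a), List α) := Finset.univ.sigma S
  let F : (Σ _ : Fin (2 * a) × Fin (2 * a), List α) → List α :=
    fun q => φ (vA q.1.1) :: (q.2 ++ [φ (vB q.1.2)])
  have hroute : ∀ q ∈ Ω, ∃ l, IsRoute Γ l ∧ (ext q.1.1 q.1.2 l).map φ = F q := by
    rintro ⟨p, w⟩ hq
    obtain ⟨l, hl, rfl⟩ := hw p w (Finset.mem_sigma.1 hq).2
    exact ⟨l, hl, map_ext φ _ _ l⟩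
  have hΩ : (2 * a) * (2 * a) * m ≤ Ω.card := by
    rw [Finset.card_sigma]
    calc (2 * a) * (2 * a) * m = ∑ _p : Fin (2 * a) × Fin (2 * a), m := by simp
      _ ≤ _ := Finset.sum_le_sum (fun p _ => hS p)
  have hfib : ∀ b ∈ Ω.image F, (Ω.filter (fun q => F q = b)).card ≤ 2 * (2 * a) := by
    intro b _
    have hinj : Set.InjOn (fun q : (Σ _ : Fin (2 * a) × Fin (2 * a), List α) => q.1)
        (Ω.filter (fun q => F q = b) : Set _) := by
      rintro ⟨p, w⟩ hp ⟨p', w'⟩ hq hpp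
      simp only at hpp
      subst hpp
      simp only [Finset.coe_filter, Set.mem_ofPred_eq] at hp hq
      have := hp.2.trans hq.2.symm
      simp only [F, List.cons.injEq, true_and, List.append_cancel_right_eq] at this
      rw [this]
    rw [← Finset.card_image_of_injOn hinj]
    apply card_le_of_no_four
    intro x₁ x₂ x₃ y₁ y₂ h12 h32 hy m₁ m₂ m₃ m₄
    obtain ⟨q₁, hq₁, e₁⟩ := Finset.mem_image.1 m₁
    obtain ⟨q₂, hq₂, e₂⟩ := Finset.mem_image.1 m₂
    obtain ⟨q₃, hq₃, e₃⟩ := Finset.mem_image.1 m₃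
    obtain ⟨q₄, hq₄, e₄⟩ := Finset.mem_image.1 m₄
    rw [Finset.mem_filter] at hq₁ hq₂ hq₃ hq₄
    obtain ⟨l₁, r₁, f₁⟩ := hroute q₁ hq₁.1
    obtain ⟨l₂, r₂, f₂⟩ := hroute q₂ hq₂.1
    obtain ⟨l₃, r₃, f₃⟩ := hroute q₃ hq₃.1
    obtain ⟨l₄, r₄, f₄⟩ := hroute q₄ hq₄.1
    rw [e₁, hq₁.2] at f₁
    rw [e₂, hq₂.2] at f₂
    rw [e₃, hq₃.2] at f₃
    rw [e₄, hq₄.2] at f₄
    exact no_four hφ h12 h32 hy r₁ r₂ r₃ r₄ (f₁.trans f₂.symm) (f₁.trans f₃.symm)
      (f₁.trans f₄.symm)
  have hc := Finset.card_le_mul_card_image Ω _ hfib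
  refine ⟨Ω.image F, ?_, ?_⟩
  · rcases Nat.eq_zero_or_pos a with rfl | ha
    · simp
    · have : 2 * (2 * a) * (a * m) ≤ 2 * (2 * a) * (Ω.image F).card := by
        calc 2 * (2 * a) * (a * m) = (2 * a) * (2 * a) * m := by ring
          _ ≤ _ := hΩ.trans hc
      exact Nat.le_of_mul_le_mul_left this (by omega)
  · intro w hw'
    obtain ⟨q, hq, rfl⟩ := Finset.mem_image.1 hw'
    obtain ⟨l, hl, e⟩ := hroute q hq
    exact ⟨_, hl.ext _ _, e⟩

theorem words_tower₁ (α : Type) (k : ℕ) : Words α (tower₁ k) 1 := by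
  induction k with
  | zero => exact words_base α
  | succ k ih => exact words_step_one ih

theorem words_tower₂ (α : Type) (a R k : ℕ) : Words α (tower₂ (2 * a) R k) (a ^ k) := by
  induction k with
  | zero => exact words_tower₁ α R
  | succ k ih => rw [pow_succ']; exact words_step ih

theorem words_le {c : ℕ} {Γ : Gad} {m : ℕ} (h : Words (Fin c) Γ m) (φ : Γ.V → Fin c)
    (hφ : NR Γ.G φ) : m ≤ c ^ (2 * Γ.D + 1) := by
  classical
  obtain ⟨S, hS, hw⟩ := h φ hφ
  refine hS.trans ?_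
  have : S.card ≤ (Finset.univ : Finset (List.Vector (Fin c) (2 * Γ.D + 1))).card := by
    have hl : ∀ w ∈ S, w.length = 2 * Γ.D + 1 := by
      intro w hw'
      obtain ⟨l, hl, rfl⟩ := hw w hw'
      simp [hl.length]
    calc S.card ≤ ((Finset.univ : Finset (List.Vector (Fin c) (2 * Γ.D + 1))).image
          (fun v => v.1)).card := by
          apply Finset.card_le_card
          intro w hw'
          exact Finset.mem_image.2 ⟨⟨w, hl w hw'⟩, Finset.mem_univ _, rfl⟩
      _ ≤ _ := Finset.card_image_le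
  simpa [card_vector] using this

/-- With enough nesting steps no nonrepetitive colouring with `c` colours exists. -/
theorem not_nonrepetitive (c R : ℕ) :
    ¬ ∃ φ : (tower₂ (2 * (2 * (c + 1) ^ 2)) R ((c + 1) * (2 * R + 1))).V → Fin c,
      IsNonrepetitive (tower₂ (2 * (2 * (c + 1) ^ 2)) R ((c + 1) * (2 * R + 1))).G φ := by
  rintro ⟨φ, hφ⟩
  have h := words_le (words_tower₂ (Fin c) (2 * (c + 1) ^ 2) R ((c + 1) * (2 * R + 1))) φ hφ.nr
  rw [tower₂_D] at h
  set L := (c + 1) * (2 * R + 1) with hL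
  have h1 : c ^ (2 * (R + L) + 1) ≤ (c + 1) ^ (2 * (R + L) + 1) :=
    Nat.pow_le_pow_left (by omega) _
  have h2 : (c + 1) ^ (2 * R + 1) < 2 ^ L := by
    rw [hL, pow_mul]
    exact Nat.pow_lt_pow_left Nat.lt_two_pow_self (by omega)
  have h3 : (c + 1) ^ (2 * (R + L) + 1) = (c + 1) ^ (2 * R + 1) * ((c + 1) ^ 2) ^ L := by
    rw [← pow_mul, ← pow_add]; congr 1; ring
  have h4 : (2 * (c + 1) ^ 2) ^ L = 2 ^ L * ((c + 1) ^ 2) ^ L := mul_pow _ _ _
  have h5 : 0 < ((c + 1) ^ 2) ^ L := by positivity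
  have := Nat.mul_lt_mul_of_pos_right h2 h5
  omega

end Pool.Agent.Lib.MP_e7c4c5_co
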